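import Pool.Agent.P8H28.OP.Rel
import Pool.Agent.P8H28.SQ.Defs
import Pool.Agent.N996.BP.CSys

/-!
# Families of classes on the powers of a variety stable under the coordinate maps
-/

set_option linter.unusedSectionVars false

open CategoryTheory AlgebraicGeometry TensorProduct

universe u

namespace Pool.Agent.P8H28.OP

open Module
open Pool.Agent.H914 Pool.Agent.H914.VarClass Pool.Agent.H914.VarClass.Obj
  Pool.Agent.H914.WeilCohomology
open Pool.Agent.Y133.Half Pool.Agent.Y133.Half.Sys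
open Pool.Agent.N996.BP.Geo (IsCd)
open Pool.Agent.P8H28.SQ (GaloisPowers IsTate)

variable {k : Type u} [Field k] {𝒱 : VarClass k} {ops : CycleOps 𝒱}
  {W : WeilCohomology.{u, 0} ops} {S : Sys W} {P Q Z X : 𝒱.Obj}

/-! ### Coordinate maps -/

lemma cd_comp {m n r : ℕ} {f : pw X m ⟶ pw X n} {g : pw X n ⟶ pw X r} (hf : IsCd f)
    (hg : IsCd g) : IsCd (f ≫ g) := by
  intro i
  obtain ⟨j, hj⟩ := hg i
  obtain ⟨l, hl⟩ := hf j
  exact ⟨l, by rw [Category.assoc, hj, hl]⟩

lemma isCd_pfst (n : ℕ) : IsCd (pfst X n) := fun i => ⟨i.castSucc, (prj_castSucc n i).symm⟩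

/-- A map to `X` which is a projection. -/
lemma isCd_zero {m : ℕ} {f : pw X m ⟶ pw X 0} {j : Fin (m + 1)} (h : f = prj X m j) : IsCd f := by
  intro i
  refine ⟨j, ?_⟩
  rw [← h]
  exact Category.comp_id f

lemma isCd_plift {m n : ℕ} {f : pw X m ⟶ pw X n} (hf : IsCd f) {j : Fin (m + 1)} :
    IsCd (plift f (prj X m j)) := by
  intro i
  refine Fin.lastCases ⟨j, ?_⟩ (fun i => ?_) i
  · rw [prj_last, plift_snd]
  · obtain ⟨l, hl⟩ := hf i
    exact ⟨l, by rw [prj_castSucc, ← Category.assoc, plift_fst, hl]⟩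

lemma isCd_pwAdd (m : ℕ) : ∀ n, IsCd ((pwAdd X m n).inv ≫ fst (pw X m) (pw X n)) ∧
    IsCd ((pwAdd X m n).inv ≫ snd (pw X m) (pw X n))
  | 0 => by
    constructor
    · intro i
      refine ⟨i.castSucc, ?_⟩
      change (𝟙 (pw X (m + 1)) ≫ pfst X m) ≫ prj X m i = prj X (m + 1) i.castSucc
      rw [Category.id_comp, prj_castSucc]
    · refine isCd_zero (j := Fin.last _) ?_
      change 𝟙 (pw X (m + 1)) ≫ psnd X m = prj X (m + 1) (Fin.last _)
      rw [Category.id_comp, prj_last]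
  | n + 1 => by
    obtain ⟨h1, h2⟩ := isCd_pwAdd m n
    have e1 : (pwAdd X m (n + 1)).inv ≫ fst (pw X m) (pw X (n + 1)) =
        pfst X (m + n + 1) ≫ ((pwAdd X m n).inv ≫ fst (pw X m) (pw X n)) := by
      change ((prodCongr (pwAdd X m n) (Iso.refl X)).inv ≫ (θ₃ (pw X m) (pw X n) X).hom) ≫
        fst (pw X m) ((pw X n).prod X) = fst (pw X (m + n + 1)) X ≫ _
      rw [Category.assoc]
      have h3 : (θ₃ (pw X m) (pw X n) X).hom ≫ fst (pw X m) ((pw X n).prod X) =
        fst _ _ ≫ fst _ _ := Obj.lift_fst _ _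
      have h4 : (prodCongr (pwAdd X m n) (Iso.refl X)).inv ≫ fst _ _ =
        fst _ _ ≫ (pwAdd X m n).inv := Obj.lift_fst _ _
      rw [h3, ← Category.assoc, h4, Category.assoc]
    have e2 : (pwAdd X m (n + 1)).inv ≫ snd (pw X m) (pw X (n + 1)) =
        plift (pfst X (m + n + 1) ≫ ((pwAdd X m n).inv ≫ snd (pw X m) (pw X n)))
          (psnd X (m + n + 1)) := by
      have h4 : (prodCongr (pwAdd X m n) (Iso.refl X)).inv ≫ fst _ _ =
        fst _ _ ≫ (pwAdd X m n).inv := Obj.lift_fst _ _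
      have h5 : (prodCongr (pwAdd X m n) (Iso.refl X)).inv ≫ snd _ _ =
        snd _ _ ≫ (Iso.refl X).inv := Obj.lift_snd _ _
      have h6 : (θ₃ (pw X m) (pw X n) X).hom ≫ snd (pw X m) ((pw X n).prod X) =
        Obj.lift (fst _ _ ≫ snd _ _) (snd _ _) := Obj.lift_snd _ _
      change ((prodCongr (pwAdd X m n) (Iso.refl X)).inv ≫ (θ₃ (pw X m) (pw X n) X).hom) ≫
        snd (pw X m) ((pw X n).prod X) = Obj.lift (fst (pw X (m + n + 1)) X ≫ _)
          (snd (pw X (m + n + 1)) X)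
      rw [Category.assoc, h6, comp_lift, ← Category.assoc, h4, h5, Category.assoc]
      congr 1
    rw [e1, e2]
    refine ⟨cd_comp (isCd_pfst _) h1, ?_⟩
    rw [← prj_last]
    exact isCd_plift (cd_comp (isCd_pfst _) h2)

/-! ### Families -/

/-- The family given by spaces stable under products, pull-backs and push-forwards along
coordinate maps. -/
noncomputable def Fam.ofCd (S : Sys W) (F : ∀ n, Submodule W.K (W.H (pw X n)))
    (le : ∀ n, S.C (pw X n) ≤ F n) (mul : ∀ n, ∀ x ∈ F n, ∀ y ∈ F n, x * y ∈ F n)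
    (map : ∀ m n, ∀ f : pw X m ⟶ pw X n, IsCd f → ∀ x ∈ F n, W.map f x ∈ F m)
    (push : ∀ m n, ∀ f : pw X m ⟶ pw X n, IsCd f → ∀ x ∈ F m, W.push f x ∈ F n) : Fam S X where
  F := F
  le := le
  op {m n f} hf x hx := by
    obtain ⟨c, hc, rfl⟩ := mem_Op.1 hf
    rw [corr_apply]
    obtain ⟨h1, h2⟩ := isCd_pwAdd (X := X) m n
    have e1 : c * W.map (fst (pw X m) (pw X n)) x = W.map (pwAdd X m n).hom
        (W.map (pwAdd X m n).inv c *
          W.map ((pwAdd X m n).inv ≫ fst (pw X m) (pw X n)) x) := by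
      rw [map_mul, map_hom_inv, ← W.map_comp, Iso.hom_inv_id_assoc]
    have e2 : ∀ y : W.H (pw X (m + n + 1)), W.push (snd (pw X m) (pw X n))
        (W.map (pwAdd X m n).hom y) = W.push ((pwAdd X m n).inv ≫ snd (pw X m) (pw X n))
          (W.push (pwAdd X m n).hom 1 * y) := by
      intro y
      rw [← W.push_mul, one_mul, ← W.push_comp, Iso.hom_inv_id_assoc]
    rw [e1, e2]
    refine push _ _ _ h2 _ (mul _ _ (le _ (S.push _ (S.one _))) _ (mul _ _ ?_ _ ?_))
    · exact le _ (S.map _ hc)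
    · exact map _ _ _ h1 _ hx

/-- The external powers of a class of the family. -/
lemma Fam.un_mem (F : Fam S X) (mul : ∀ n, ∀ x ∈ F.F n, ∀ y ∈ F.F n, x * y ∈ F.F n)
    (map : ∀ m n, ∀ f : pw X m ⟶ pw X n, IsCd f → ∀ x ∈ F.F n, W.map f x ∈ F.F m) {κ : ℕ}
    {q : W.H (pw X κ)} (hq : q ∈ F.F κ) (i : ℕ) :
    ∃ θ : qn X (pw X κ) i ≅ pw X (i * (κ + 1)), un W (1 : W.H X) q i ∈ F.on θ := by
  suffices h : ∀ i : ℕ, ∃ m, m = i * (κ + 1) ∧ ∃ θ : qn X (pw X κ) i ≅ pw X m,
      un W (1 : W.H X) q i ∈ F.on θ by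
    obtain ⟨m, rfl, θ, h⟩ := h i
    exact ⟨θ, h⟩
  intro i
  induction i with
  | zero =>
    refine ⟨0, by ring, Iso.refl X, ?_⟩
    change W.map (𝟙 X) (1 : W.H X) ∈ F.F 0
    rw [map_one]
    exact F.le 0 (S.one _)
  | succ i ih =>
    obtain ⟨m, hm, θ, h⟩ := ih
    refine ⟨m + κ + 1, by rw [hm]; ring, prodCongr θ (Iso.refl _) ≪≫ pwAdd X m κ, ?_⟩
    change W.map ((pwAdd X m κ).inv ≫ (prodCongr θ (Iso.refl (pw X κ))).inv)
      (xp W (un W (1 : W.H X) q i) q) ∈ F.F (m + κ + 1)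
    have h4 : (prodCongr θ (Iso.refl (pw X κ))).inv ≫ fst _ _ =
      fst _ _ ≫ θ.inv := Obj.lift_fst _ _
    have h5 : (prodCongr θ (Iso.refl (pw X κ))).inv ≫ snd _ _ =
      snd _ _ ≫ (Iso.refl (pw X κ)).inv := Obj.lift_snd _ _
    have h6 : snd (pw X m) (pw X κ) ≫ (Iso.refl (pw X κ)).inv = snd (pw X m) (pw X κ) :=
      Category.comp_id _
    rw [xp, map_mul, ← W.map_comp, ← W.map_comp, Category.assoc, Category.assoc, h4, h5, h6]
    obtain ⟨h1, h2⟩ := isCd_pwAdd (X := X) m κ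
    refine mul _ _ ?_ _ (map _ _ _ h2 _ hq)
    rw [← Category.assoc, W.map_comp]
    exact map _ _ _ h1 _ h

/-! ### Galois actions -/

variable (G : GaloisPowers W X)

lemma rho_prj (g : G.Γ) : ∀ (m : ℕ) (i : Fin (m + 1)) (a : W.H X),
    G.ρ m g (W.map (prj X m i) a) = W.map (prj X m i) (G.ρ 0 g a)
  | 0, i, a => by
    have h1 : W.map (prj X 0 i) a = a := W.map_id X a
    have h2 : W.map (prj X 0 i) (G.ρ 0 g a) = G.ρ 0 g a := W.map_id X _
    rw [h1]
    exact h2.symm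
  | m + 1, i, a => by
    refine Fin.lastCases ?_ (fun i => ?_) i
    · rw [prj_last]
      exact G.snd m g a
    · rw [prj_castSucc, W.map_comp, W.map_comp, ← rho_prj g m i a]
      exact G.fst m g _

lemma rho_map (g : G.Γ) : ∀ (n : ℕ) {m : ℕ} (f : pw X m ⟶ pw X n), IsCd f →
    ∀ c : W.H (pw X n), G.ρ m g (W.map f c) = W.map f (G.ρ n g c)
  | 0, m, f, hf, c => by
    obtain ⟨j, hj⟩ := hf 0
    have h1 : f = prj X m j := by
      rw [← hj]
      exact (Category.comp_id f).symm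
    rw [h1]
    exact rho_prj G g m j c
  | n + 1, m, f, hf, c => by
    refine xp_induction (X := pw X n) (Y := X) (p := fun c : W.H ((pw X n).prod X) =>
      G.ρ m g (W.map f c) = W.map f (G.ρ (n + 1) g c)) ?_ ?_ c
    · intro a b ha hb
      have h1 : W.map f (a + b) = W.map f a + W.map f b := map_add _ _ _
      have h2 : G.ρ (n + 1) g (a + b) = G.ρ (n + 1) g a + G.ρ (n + 1) g b := map_add _ _ _
      rw [h1, map_add, ha, hb, h2, map_add]
    · intro _ _ a _ b _
      obtain ⟨j, hj⟩ := hf (Fin.last _)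
      rw [prj_last] at hj
      have h1 : W.map f (xp W a b : W.H ((pw X n).prod X)) =
          W.map (f ≫ pfst X n) a * W.map (f ≫ psnd X n) b := by
        rw [W.map_comp, W.map_comp, ← map_mul]
        rfl
      have h2 : G.ρ (n + 1) g (xp W a b : W.H ((pw X n).prod X)) =
          W.map (pfst X n) (G.ρ n g a) * W.map (psnd X n) (G.ρ 0 g b) := by
        have h3 : G.ρ (n + 1) g (W.map (pfst X n) a * W.map (psnd X n) b) =
          G.ρ (n + 1) g (W.map (pfst X n) a) * G.ρ (n + 1) g (W.map (psnd X n) b) := map_mul _ _ _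
        refine h3.trans ?_
        exact congrArg₂ (· * ·) (G.fst n g a) (G.snd n g b)
      have h4 : IsCd (f ≫ pfst X n) := cd_comp hf (isCd_pfst n)
      rw [h1, map_mul, rho_map g n _ h4, hj, rho_prj, h2, map_mul, ← hj, W.map_comp, W.map_comp]

lemma rho_push (g : G.Γ) {m n : ℕ} (f : pw X m ⟶ pw X n) (hf : IsCd f) (c : W.H (pw X m)) :
    (G.χ g : W.K) ^ (pw X n).dim • W.push f (G.ρ m g c) =
      (G.χ g : W.K) ^ (pw X m).dim • G.ρ n g (W.push f c) := by
  apply W.tr_ext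
  intro d
  obtain ⟨d, rfl⟩ : ∃ d', G.ρ n g d' = d := ⟨(G.ρ n g).symm d, (G.ρ n g).apply_symm_apply d⟩
  rw [smul_mul_assoc, smul_mul_assoc, map_smul, map_smul, W.tr_push, ← rho_map G g n f hf,
    ← map_mul, ← map_mul, G.tr, G.tr, W.tr_push]
  simp only [smul_eq_mul]
  ring

/-! ### Tate classes -/

/-- The space spanned by the Tate classes. -/
noncomputable def TT (n : ℕ) : Submodule W.K (W.H (pw X n)) :=
  Submodule.span W.K {c | ∃ j, IsTate G n j c}

variable {G}

lemma tate_mul {n i j : ℕ} {c d : W.H (pw X n)} (hc : IsTate G n i c) (hd : IsTate G n j d) :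
    IsTate G n (i + j) (c * d) := by
  obtain ⟨h1, Δ, hΔ, h2⟩ := hc
  obtain ⟨h1', Δ', hΔ', h2'⟩ := hd
  refine ⟨?_, Δ ⊓ Δ', inferInstance, fun g hg => ?_⟩
  · have h3 := W.mul_mem h1 h1'
    rwa [← mul_add] at h3
  · rw [map_mul, h2 g hg.1, h2' g hg.2, smul_mul_smul_comm, ← pow_add]

lemma tate_map {m n j : ℕ} {f : pw X m ⟶ pw X n} (hf : IsCd f) {c : W.H (pw X n)}
    (hc : IsTate G n j c) : IsTate G m j (W.map f c) := by
  obtain ⟨h1, Δ, hΔ, h2⟩ := hc
  refine ⟨W.map_mem f h1, Δ, hΔ, fun g hg => ?_⟩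
  rw [rho_map G g n f hf, h2 g hg, map_smul]

lemma tate_push {m n j : ℕ} {f : pw X m ⟶ pw X n} (hf : IsCd f) {c : W.H (pw X m)}
    (hc : IsTate G m j c) : W.push f c ∈ TT G n := by
  obtain ⟨h1, Δ, hΔ, h2⟩ := hc
  have h := W.push_mem f h1
  by_cases hd : 0 ≤ (j : ℤ) + ((pw X n).dim : ℤ) - (pw X m).dim
  · obtain ⟨j', hj'⟩ := Int.eq_ofNat_of_zero_le hd
    refine Submodule.subset_span ⟨j', ?_, Δ, hΔ, fun g hg => ?_⟩
    · have e : (((2 * j : ℕ) : ℤ) + 2 * (((pw X n).dim : ℤ) - (pw X m).dim)) = ((2 * j' : ℕ) : ℤ) := by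
        push_cast
        linarith
      rw [e, grZ_natCast] at h
      exact h
    · have h3 := rho_push G g f hf c
      rw [h2 g hg, map_smul, smul_smul, ← pow_add] at h3
      have e : (pw X n).dim + j = (pw X m).dim + j' := by omega
      rw [e, pow_add, mul_smul] at h3
      have hne : (G.χ g : W.K) ^ (pw X m).dim ≠ 0 := pow_ne_zero _ (G.χ g).ne_zero
      exact (smul_right_injective _ hne h3).symm
  · rw [grZ_of_neg (by push_cast; omega)] at h
    rw [(Submodule.mem_bot _).1 h]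
    exact Submodule.zero_mem _

lemma TT_mul (n : ℕ) : ∀ x ∈ TT G n, ∀ y ∈ TT G n, x * y ∈ TT G n := by
  intro x hx y hy
  induction hx using Submodule.span_induction with
  | mem x hx =>
    obtain ⟨i, hi⟩ := hx
    induction hy using Submodule.span_induction with
    | mem y hy =>
      obtain ⟨j, hj⟩ := hy
      exact Submodule.subset_span ⟨_, tate_mul hi hj⟩
    | zero => rw [mul_zero]; exact Submodule.zero_mem _
    | add a b _ _ ha hb => rw [mul_add]; exact Submodule.add_mem _ ha hb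
    | smul r a _ ha => rw [mul_smul_comm]; exact Submodule.smul_mem _ _ ha
  | zero => rw [zero_mul]; exact Submodule.zero_mem _
  | add a b _ _ ha hb => rw [add_mul]; exact Submodule.add_mem _ ha hb
  | smul r a _ ha => rw [smul_mul_assoc]; exact Submodule.smul_mem _ _ ha

lemma TT_map (m n : ℕ) (f : pw X m ⟶ pw X n) (hf : IsCd f) : ∀ x ∈ TT G n,
    W.map f x ∈ TT G m := by
  intro x hx
  induction hx using Submodule.span_induction with
  | mem x hx =>
    obtain ⟨i, hi⟩ := hx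
    exact Submodule.subset_span ⟨_, tate_map hf hi⟩
  | zero => rw [map_zero]; exact Submodule.zero_mem _
  | add a b _ _ ha hb => rw [map_add]; exact Submodule.add_mem _ ha hb
  | smul r a _ ha => rw [map_smul]; exact Submodule.smul_mem _ _ ha

lemma TT_push (m n : ℕ) (f : pw X m ⟶ pw X n) (hf : IsCd f) : ∀ x ∈ TT G m,
    W.push f x ∈ TT G n := by
  intro x hx
  induction hx using Submodule.span_induction with
  | mem x hx =>
    obtain ⟨i, hi⟩ := hx
    exact tate_push hf hi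
  | zero => rw [map_zero]; exact Submodule.zero_mem _
  | add a b _ _ ha hb => rw [map_add]; exact Submodule.add_mem _ ha hb
  | smul r a _ ha => rw [map_smul]; exact Submodule.smul_mem _ _ ha

/-- The family of the Tate classes. -/
noncomputable def tateFam (G : GaloisPowers W X) (S : Sys W)
    (hS : ∀ n, S.C (pw X n) ≤ TT G n) : Fam S X :=
  Fam.ofCd S (TT G) hS TT_mul TT_map TT_push

end Pool.Agent.P8H28.OP
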