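import Pool.Agent.P8H28.SE.Pws

/-!
# Numbers of linearly independent classes, sparse families: definitions
-/

universe u

namespace Pool.Agent.P8H28.OP

open Pool.Agent.P8H28.SE

/-- The number of linearly independent elements of `A n` in the union of the sets `C n j`. -/
noncomputable def count {K : Type} [Field K] {T : Tower K} (C : Family T) (n : ℕ) : ℕ :=
  Set.finrank K {c | ∃ j, c ∈ C n j}

/-- The numbers `h n` are small in comparison with the numbers `t n`: for all `L ≥ 1` and `n ≥ 1` we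
have `(L - C log (n + 2) / n) h n ≤ t n`, where
`C = 3 L (L (κ + 1) + 3) b ^ (L (κ + 1) + 5)`, and for all `n` we have
`log (n + 1) h n ≤ 56 (κ + 1) log (2 b) t n`. -/
def Sparse (h t : ℕ → ℕ) (κ b : ℕ) : Prop :=
  (∀ L n : ℕ, 0 < L → 0 < n →
    ((L : ℝ) - (3 * L * (L * (κ + 1) + 3) * b ^ (L * (κ + 1) + 5) : ℕ) * Real.log (n + 2) / n) *
      h n ≤ t n) ∧
  ∀ n : ℕ, Real.log (n + 1) * h n ≤ 56 * (κ + 1) * Real.log (2 * b) * t n

end Pool.Agent.P8H28.OP
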