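import Pool.Agent.H914R2.Weil

/-!
# At most half of the classes: the definitions
-/

universe u

namespace Pool.Agent.P8H28.OP

open Pool.Agent.H914

/-- The numbers `a n` are at most the halves of the numbers `t n`, up to a small error. Either
`(2 - C log (n + 2) / n) a n ≤ t n` for all `n ≥ 1`, where `C = 9 (N + 3) b ^ (N + 7)`, or
`(2 - 56 N log (2 b) / log (n + 1)) a n ≤ t n` for all `n ≥ 1`. -/
def AtMostHalf (a t : ℕ → ℕ) (N b : ℕ) : Prop :=
  (∀ n : ℕ, 0 < n →
    (2 - (9 * (N + 3) * b ^ (N + 7) : ℕ) * Real.log (n + 2) / n) * a n ≤ t n) ∨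
  ∀ n : ℕ, (2 * Real.log (n + 1) - 56 * N * Real.log (2 * b)) * a n ≤ Real.log (n + 1) * t n

/-- The sum of the Betti numbers of `X`. -/
noncomputable def betti {k : Type u} [Field k] {𝒱 : VarClass k} {ops : CycleOps 𝒱}
    (W : WeilCohomology.{u, 0} ops) (X : 𝒱.Obj) : ℕ := Module.finrank W.K (W.H X)

end Pool.Agent.P8H28.OP
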