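import Mathlib

/-!
# The `ℓ`-adic numbers embed into the complex numbers
-/

open Cardinal

namespace Pool.Agent.P8H28.OP

lemma mk_padic_le (p : ℕ) [Fact p.Prime] : #ℚ_[p] ≤ 𝔠 := by
  have h1 : #ℚ_[p] ≤ #(CauSeq ℚ (padicNorm p)) :=
    Cardinal.mk_le_of_surjective (f := fun s => (CauSeq.Completion.mk s : ℚ_[p]))
      fun x => Quotient.inductionOn x fun y => ⟨y, rfl⟩
  have h2 : #(CauSeq ℚ (padicNorm p)) ≤ #(ℕ → ℚ) :=
    Cardinal.mk_le_of_injective (f := fun s => (s : ℕ → ℚ)) Subtype.val_injective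
  have h3 : #(ℕ → ℚ) = 𝔠 := by simp
  exact h1.trans (h2.trans h3.le)

lemma mk_padic (p : ℕ) [Fact p.Prime] : #ℚ_[p] = 𝔠 :=
  le_antisymm (mk_padic_le p) (continuum_le_cardinal_of_nontriviallyNormedField ℚ_[p])

/-- The `ℓ`-adic numbers embed into the complex numbers. -/
theorem exists_emb (p : ℕ) [Fact p.Prime] : Nonempty (ℚ_[p] →+* ℂ) := by
  have h1 : #(AlgebraicClosure ℚ_[p]) = 𝔠 := by
    apply le_antisymm
    · have h2 := Algebra.IsAlgebraic.cardinalMk_le_max ℚ_[p] (AlgebraicClosure ℚ_[p])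
      rw [mk_padic, max_eq_left aleph0_le_continuum] at h2
      exact h2
    · rw [← mk_padic p]
      exact Cardinal.mk_le_of_injective (algebraMap ℚ_[p] (AlgebraicClosure ℚ_[p])).injective
  have h3 : Nonempty (AlgebraicClosure ℚ_[p] ≃ ℂ) := by
    apply Cardinal.eq.1
    rw [h1, Cardinal.mk_complex]
  have : CharZero (AlgebraicClosure ℚ_[p]) :=
    charZero_of_injective_algebraMap (algebraMap ℚ_[p] (AlgebraicClosure ℚ_[p])).injective
  obtain ⟨e⟩ := IsAlgClosed.ringEquiv_of_equiv_of_charZero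
    (K := AlgebraicClosure ℚ_[p]) (L := ℂ) (by rw [h1]; exact aleph0_lt_continuum) h3
  exact ⟨e.toRingHom.comp (algebraMap ℚ_[p] (AlgebraicClosure ℚ_[p]))⟩

end Pool.Agent.P8H28.OP
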