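import Pool.Agent.P8H28.DL.Num
import Pool.Agent.Y121.AH.Gen

/-!
# Families of classes on the powers of a variety: lower bounds from chains
-/

set_option linter.unusedSectionVars false

open CategoryTheory AlgebraicGeometry

universe u v

namespace Pool.Agent.P8H28.OP

open Module
open Pool.Agent.H914 Pool.Agent.H914.VarClass Pool.Agent.H914.VarClass.Obj
  Pool.Agent.H914.WeilCohomology
open Pool.Agent.Y133.Half Pool.Agent.Y133.Half.Sys
open Pool.Agent.P8H28.AT (a_le_H a_up C_eq log_le a_eq)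
open Pool.Agent.P8H28.DL (er er_nonneg al_ratio r_real concl small one_le_log coef_small)
open Pool.Agent.Y121.AH (gen mem_gen gen_map gen_mono Stab stab_gen gen_lt gen_self retr_fst)

variable {k : Type u} [Field k] {𝒱 : VarClass k} {ops : CycleOps 𝒱}
  {W : WeilCohomology.{u, v} ops} {S : Sys W} {P P₀ Q Z X : 𝒱.Obj}

lemma map_hom_inv (θ : P ≅ Q) (x : W.H P) : W.map θ.hom (W.map θ.inv x) = x := by
  rw [← W.map_comp, θ.hom_inv_id, W.map_id]

lemma map_inv_hom (θ : P ≅ Q) (x : W.H Q) : W.map θ.inv (W.map θ.hom x) = x := by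
  rw [← W.map_comp, θ.inv_hom_id, W.map_id]

/-- Spaces of classes on the powers of `X` which contain the classes of the system `S` and are stable
under the operators of `S`. -/
structure Fam (S : Sys W) (X : 𝒱.Obj) where
  /-- the classes -/
  F : ∀ n, Submodule W.K (W.H (pw X n))
  le : ∀ n, S.C (pw X n) ≤ F n
  op : ∀ {m n : ℕ} {f : W.H (pw X m) →ₗ[W.K] W.H (pw X n)}, f ∈ S.Op (pw X m) (pw X n) →
    ∀ {x : W.H (pw X m)}, x ∈ F m → f x ∈ F n

/-- The classes of the family on an object isomorphic to a power. -/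
noncomputable def Fam.on (F : Fam S X) {m : ℕ} (θ : P ≅ pw X m) : Submodule W.K (W.H P) :=
  (F.F m).comap (W.map θ.inv).toLinearMap

lemma Fam.mem_on {F : Fam S X} {m : ℕ} {θ : P ≅ pw X m} {x : W.H P} :
    x ∈ F.on θ ↔ W.map θ.inv x ∈ F.F m := Iff.rfl

lemma Fam.on_op (F : Fam S X) {m n : ℕ} (θ : P ≅ pw X m) (θ' : Q ≅ pw X n)
    {f : W.H P →ₗ[W.K] W.H Q} (hf : f ∈ S.Op P Q) {x : W.H P} (hx : x ∈ F.on θ) :
    f x ∈ F.on θ' := by
  have h1 : (W.map θ'.inv).toLinearMap ∘ₗ f ∘ₗ (W.map θ.hom).toLinearMap ∈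
      S.Op (pw X m) (pw X n) := Op.comp (Op.map _) (Op.comp hf (Op.map _))
  have h2 := F.op h1 (Fam.mem_on.1 hx)
  change W.map θ'.inv (f (W.map θ.hom (W.map θ.inv x))) ∈ F.F n at h2
  rwa [map_hom_inv] at h2

lemma Fam.on_self (F : Fam S X) {m n : ℕ} (θ : P ≅ pw X m) (θ' : P ≅ pw X n) {x : W.H P}
    (hx : x ∈ F.on θ) : x ∈ F.on θ' := F.on_op θ θ' (f := LinearMap.id) Op.id hx

lemma Fam.finrank_on (F : Fam S X) {m : ℕ} (θ : P ≅ pw X m) :
    finrank W.K (F.on θ) ≤ finrank W.K (F.F m) := by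
  refine LinearMap.finrank_le_finrank_of_injective
    (f := (W.map θ.inv).toLinearMap.restrict (p := F.on θ) (q := F.F m) fun x hx => hx) ?_
  intro x y h
  apply Subtype.ext
  have h1 : W.map θ.inv (x : W.H P) = W.map θ.inv y := congrArg Subtype.val h
  rw [← map_hom_inv θ (x : W.H P), h1, map_hom_inv]

/-- **Chains of stable subspaces.** -/
theorem key_chain' (S : Sys W) (P Z : 𝒱.Obj)
    (M : ℕ → Submodule W.K (W.H P)) (hM : ∀ n, ∀ a ∈ S.Op P P, ∀ m ∈ M n, a m ∈ M n) (l : ℕ)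
    (hlt : ∀ n < l, M n < M (n + 1)) {T : Submodule W.K (W.H Z)}
    (hT : ∀ f ∈ S.Op P Z, ∀ x ∈ M l, f x ∈ T) :
    ∃ g : ℕ → Module.End W.K (W.H P),
      (∀ n < l, g n ∈ S.Op P P ∧ g n ∘ₗ g n = g n ∧ g n ≠ 0) ∧
      ∑ n ∈ Finset.range l, S.r P (g n) Z ≤ finrank W.K T := by
  let X : Fin 2 → 𝒱.Obj := ![P, Z]
  obtain ⟨g, hg, hs⟩ := (S.cat X).chain (i := 0) M hM l hlt 1
  refine ⟨g, hg, ?_⟩
  have h1 : ∑ n ∈ Finset.range l, S.r P (g n) Z = ∑ n ∈ Finset.range l,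
      rk (A := (S.cat X).S 0 1) (B := (S.cat X).S 1 0) ((S.cat X).B 0 1 (g n) LinearMap.id) := by
    refine Finset.sum_congr rfl fun n hn => ?_
    exact (S.rk_BO_r (P := P) (Z := Z) (g := g n)
      (Op.ev (S := S) (hg n (Finset.mem_range.1 hn)).1)).symm
  rw [h1]
  have h3 : (S.cat X).gen 0 1 (M l) ≤ (T : Submodule W.K (W.H Z)) := by
    refine Submodule.span_le.2 ?_
    rintro _ ⟨v, hv, m, hm, rfl⟩
    exact hT v hv m hm
  refine hs.trans ?_
  exact Submodule.finrank_mono (R := W.K) (M := W.H Z) h3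

/-- The isomorphism with a power. -/
noncomputable def zIso (X : 𝒱.Obj) {m₀ l n : ℕ} (hn : n = m₀ + (l + l + 1) + 1) :
    (pw X m₀).prod ((pw X l).prod (pw X l)) ≅ pw X n :=
  prodCongr (Iso.refl _) (pwAdd X l l) ≪≫ pwAdd X m₀ (l + l + 1) ≪≫
    eqToIso (congrArg (pw X) hn.symm)

/-- The contributions of a chain. -/
theorem units_fam (F : Fam S X) (hX : 0 < finrank W.K (W.H X)) (hpos : ∀ n, 0 < S.al X n)
    {m m₀ j l n N e : ℕ} (hj : m + m₀ + 2 = 2 * j) (hl : 0 < l)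
    (hn : n = m₀ + (l + l + 1) + 1) (θ : P ≅ pw X m) (M : ℕ → Submodule W.K (W.H P))
    (hM : ∀ i, Stab S P (M i)) (hlt : ∀ i < N, M i < M (i + 1)) (hMF : M N ≤ F.on θ)
    (hgr : (finrank W.K (W.H X) ^ 2) ^ (l + 1) ≤ S.al X l * (l + 2) ^ e) :
    (N : ℝ) * ((finrank W.K (W.H X) : ℝ) ^ (m₀ + 1) -
      er (finrank W.K (W.H X)) j e l) * S.al X l ≤ finrank W.K (F.F n) := by
  set Z := (pw X m₀).prod ((pw X l).prod (pw X l)) with hZ
  set b := finrank W.K (W.H X) with hb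
  obtain ⟨g, hg, hs⟩ := key_chain' S P Z M hM N hlt (T := F.on (zIso X hn))
    (fun f hf x hx => F.on_op θ _ hf (hMF hx))
  have hr : ∀ i ∈ Finset.range N, ((b : ℝ) ^ (m₀ + 1) - er b j e l) * S.al X l ≤
      S.r P (g i) Z := by
    intro i hi
    obtain ⟨h1, h2, h3⟩ := hg i (Finset.mem_range.1 hi)
    exact r_real hX hpos hj θ h1 h2 h3 hl hgr
  calc (N : ℝ) * ((b : ℝ) ^ (m₀ + 1) - er b j e l) * S.al X l
      = ∑ i ∈ Finset.range N, ((b : ℝ) ^ (m₀ + 1) - er b j e l) * S.al X l := by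
        rw [Finset.sum_const, Finset.card_range, nsmul_eq_mul, mul_assoc]
    _ ≤ ∑ i ∈ Finset.range N, (S.r P (g i) Z : ℝ) := Finset.sum_le_sum hr
    _ ≤ finrank W.K (F.on (zIso X hn)) := by exact_mod_cast hs
    _ ≤ finrank W.K (F.F n) := by exact_mod_cast F.finrank_on _

/-- There is a strictly increasing chain of `N + 1` stable spaces of classes of the family on
`X ^ (m + 1)`. -/
def HasCh (F : Fam S X) (m N : ℕ) : Prop :=
  ∃ (P : 𝒱.Obj) (θ : P ≅ pw X m) (M : ℕ → Submodule W.K (W.H P)),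
    (∀ i, Stab S P (M i)) ∧ (∀ i < N, M i < M (i + 1)) ∧ M N ≤ F.on θ

lemma HasCh.succ {F : Fam S X} {l : W.H X} (hl : l ∈ S.C X) (hl1 : W.tr X l = 1) {m N : ℕ}
    (h : HasCh F m N) : HasCh F (m + 1) N := by
  obtain ⟨P, θ, M, hM, hlt, hMF⟩ := h
  obtain ⟨θ'⟩ : Nonempty (P.prod X ≅ pw X (m + 1)) := ⟨prodCongr θ (Iso.refl X)⟩
  refine ⟨P.prod X, θ', fun i => gen S P (P.prod X) (M i),
    fun i => stab_gen, fun i hi => gen_lt (retr_fst S hl hl1) (hM i) (hlt i hi), ?_⟩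
  refine Submodule.span_le.2 ?_
  rintro _ ⟨f, hf, t, ht, rfl⟩
  exact F.on_op θ θ' hf (hMF ht)

lemma const_le' {b N j M e : ℕ} (hb : 0 < b) (hj : 2 * j ≤ M) :
    5 * N * j * b ^ (2 * j) * e ≤ 3 * N * M * b ^ M * e := by
  apply Nat.mul_le_mul_right
  have h1 : b ^ (2 * j) ≤ b ^ M := Nat.pow_le_pow_right hb hj
  calc 5 * N * j * b ^ (2 * j) = N * (5 * j) * b ^ (2 * j) := by ring
    _ ≤ N * (3 * M) * b ^ M := Nat.mul_le_mul (Nat.mul_le_mul_left _ (by omega)) h1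
    _ = _ := by ring

/-- **The lower bound**, for a family with a chain. -/
theorem bound_at (F : Fam S X) {l : W.H X} (hl : l ∈ S.C X) (hl1 : W.tr X l = 1) {m N e c : ℕ}
    (hch : HasCh F m N) (he : 0 < e)
    (hc : 3 * N * (m + 4) * finrank W.K (W.H X) ^ (m + 4) * e ≤ c) {n : ℕ} (hn : 0 < n)
    (hg : ∀ i, 0 < i → (finrank W.K (W.H X) ^ 2) ^ (i + 1) ≤ S.al X i * (i + 2) ^ e ∨
      ∀ m₀ ≤ 1, n = m₀ + (i + i + 1) + 1 → N * S.a (pw X n) ≤ finrank W.K (F.F n)) :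
    ((N : ℝ) - c * Real.log (n + 2) / n) * S.a (pw X n) ≤ finrank W.K (F.F n) := by
  have h1 : (1 : W.H X) ≠ 0 := one_ne_zero_of (ne_zero_of_tr hl1)
  have hX : 0 < finrank W.K (W.H X) := by
    have : Nontrivial (W.H X) := ⟨⟨1, 0, h1⟩⟩
    exact Module.finrank_pos
  have hpos : ∀ n, 0 < S.al X n := by
    intro n
    obtain ⟨m, hm, hm1⟩ := S.exists_lam hl hl1 n
    refine S.a_pos (xp_mem_C S hm hm) ?_
    rw [tr_xp, hm1, mul_one]
  set b := finrank W.K (W.H X) with hb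
  have hb1 : 1 ≤ b ^ (m + 4) := Nat.one_le_pow _ _ hX
  rcases Nat.lt_or_ge 3 n with h3 | h3
  swap
  · refine coef_small hn h3 (le_trans ?_ hc)
    calc 3 * N = 3 * N * 1 * 1 * 1 := by ring
      _ ≤ _ := Nat.mul_le_mul (Nat.mul_le_mul (Nat.mul_le_mul_left _ (by omega)) hb1) he
  obtain ⟨m₀, i, hm₀, hi, hni⟩ : ∃ m₀ i, m₀ ≤ 1 ∧ 0 < i ∧ n = m₀ + (i + i + 1) + 1 :=
    ⟨n % 2, (n - n % 2 - 2) / 2, by omega, by omega, by omega⟩
  rcases hg i hi with hgi | hgi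
  · have key : ∀ m' j : ℕ, HasCh F m' N → m' ≤ m + 1 → m' + m₀ + 2 = 2 * j →
        ((N : ℝ) - c * Real.log (n + 2) / n) * S.a (pw X n) ≤ finrank W.K (F.F n) := by
      intro m' j hch' hm' hj
      obtain ⟨P, θ, M, hM, hlt, hMF⟩ := hch'
      have h4 := units_fam F hX hpos hj hi hni θ M hM hlt hMF hgi
      refine concl (S := S) hX hm₀ hi hni (le_trans ?_ hc) h4
      exact const_le' hX (by omega)
    by_cases hp : (m + m₀) % 2 = 0
    · exact key m ((m + m₀ + 2) / 2) hch (by omega) (by omega)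
    · exact key (m + 1) ((m + 1 + m₀ + 2) / 2) (hch.succ hl hl1) le_rfl (by omega)
  · have h5 : (N : ℝ) * S.a (pw X n) ≤ finrank W.K (F.F n) := by
      exact_mod_cast hgi m₀ hm₀ hni
    refine le_trans (mul_le_mul_of_nonneg_right ?_ (Nat.cast_nonneg _)) h5
    have h6 := one_le_log hn
    have h7 : 0 ≤ (c : ℝ) * Real.log (n + 2) / n := by positivity
    linarith

/-- **The lower bound for an arbitrary system.** -/
theorem bound (F : Fam S X) {m N c : ℕ} (hch : HasCh F m N)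
    (hc : c = 3 * N * (N + 1) * (m + 4) * finrank W.K (W.H X) ^ (m + 6)) {n : ℕ} (hn : 0 < n) :
    ((N : ℝ) - c * Real.log (n + 2) / n) * S.a (pw X n) ≤ finrank W.K (F.F n) := by
  by_cases hZ : ∀ l ∈ S.C X, W.tr X l = 0
  · rw [S.a_eq_zero_of hZ n, Nat.cast_zero, mul_zero]
    exact Nat.cast_nonneg _
  push Not at hZ
  obtain ⟨l', hl', hl'0⟩ := hZ
  obtain ⟨l, hl, hl1⟩ : ∃ l ∈ S.C X, W.tr X l = 1 :=
    ⟨(W.tr X l')⁻¹ • l', Submodule.smul_mem _ _ hl', by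
      rw [map_smul, smul_eq_mul, inv_mul_cancel₀ hl'0]⟩
  have h1 : (1 : W.H X) ≠ 0 := one_ne_zero_of (ne_zero_of_tr hl1)
  have hX : 0 < finrank W.K (W.H X) := by
    have : Nontrivial (W.H X) := ⟨⟨1, 0, h1⟩⟩
    exact Module.finrank_pos
  refine bound_at F hl hl1 hch (e := (N + 1) * finrank W.K (W.H X) ^ 2) (by positivity) ?_ hn ?_
  · rw [hc]
    apply le_of_eq
    ring
  · intro i hi
    by_cases hg : (finrank W.K (W.H X) ^ 2) ^ (i + 1) ≤
        S.al X i * (i + 2) ^ ((N + 1) * finrank W.K (W.H X) ^ 2)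
    · exact Or.inl hg
    · right
      intro m₀ hm₀ hni
      push Not at hg
      have h4 := small (T := S) (S := S) (L := N) hX hm₀ hni hg
      exact h4.trans (Submodule.finrank_mono (F.le n))

/-- **The lower bound for a system with a perfect pairing.** -/
theorem bound_nd (F : Fam S X) (hN : ∀ Z : 𝒱.Obj, S.Num Z = ⊥) {m N c : ℕ} (hch : HasCh F m N)
    (hc : c = 3 * N * (m + 4) * finrank W.K (W.H X) ^ (m + 6)) {n : ℕ} (hn : 0 < n) :
    ((N : ℝ) - c * Real.log (n + 2) / n) * S.a (pw X n) ≤ finrank W.K (F.F n) := by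
  by_cases hZ : ∀ l ∈ S.C X, W.tr X l = 0
  · rw [S.a_eq_zero_of hZ n, Nat.cast_zero, mul_zero]
    exact Nat.cast_nonneg _
  push Not at hZ
  obtain ⟨l', hl', hl'0⟩ := hZ
  obtain ⟨l, hl, hl1⟩ : ∃ l ∈ S.C X, W.tr X l = 1 :=
    ⟨(W.tr X l')⁻¹ • l', Submodule.smul_mem _ _ hl', by
      rw [map_smul, smul_eq_mul, inv_mul_cancel₀ hl'0]⟩
  have h1 : (1 : W.H X) ≠ 0 := one_ne_zero_of (ne_zero_of_tr hl1)
  have hX : 0 < finrank W.K (W.H X) := by
    have : Nontrivial (W.H X) := ⟨⟨1, 0, h1⟩⟩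
    exact Module.finrank_pos
  refine bound_at F hl hl1 hch (e := finrank W.K (W.H X) ^ 2) (by positivity) ?_ hn ?_
  · rw [hc]
    apply le_of_eq
    ring
  · intro i _
    left
    have h := S.growth X i
    rw [← a_eq (hN _)] at h
    rw [← pow_mul]
    exact h

end Pool.Agent.P8H28.OP
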