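import Pool.Agent.P8H28.OP.MT
import Pool.Agent.P8H28.OP.Emb
import Pool.Agent.P8H28.OP.Defs
import Pool.Agent.P8H28.SE.Bridge

/-!
# The effective one percent law for the Mumford-Tate conjecture
-/

set_option linter.unusedSectionVars false

open CategoryTheory AlgebraicGeometry TensorProduct

universe u

namespace Pool.Agent.P8H28.OP

open Pool.Agent.H914 Pool.Agent.H914.VarClass Pool.Agent.H914.VarClass.Obj
open Pool.Agent.Y133.Half (pw)
open Pool.Agent.Y121.AHS (HodgeTheory IsHodge toH)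
open Pool.Agent.Y121.AH (em)
open Pool.Agent.N996.FP (RForm IsPolarisation OfAbelianType SelfAdjointCentre)
open Pool.Agent.P8H28.SE

variable {k : Type u} [Field k] {𝒱 : VarClass k} {ops : CycleOps 𝒱}

/-- The law for an arbitrary variety. -/
theorem law (T : HodgeTheory ops) (X : 𝒱.Obj) (L : Type) [Field L] [Algebra T.W.K L]
    (τ : L →+* ℂ) (G : Galois (powersL T L X) X.dim)
    (deligne : ∀ n j, extF (hodgeClasses T X) L n j ⊆ tate G n j) (b : ℕ)
    (hb : b = Module.finrank T.W.K (T.W.H X)) (κ : ℕ) :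
    (∀ j, Spans (tate G) (extF (hodgeClasses T X) L) κ j) ∨
      Sparse (count (hodgeClasses T X)) (count (tate G)) κ b := by
  let G' : Galois (ext (powers T.W X) L) X.dim := G
  let i1 : Algebra (toH T).W.K L := ‹Algebra T.W.K L›
  rcases mt_law (T := toH T) (G := toSQ G') τ
    (fun n j c hc => deligne n j ⟨c, hc, rfl⟩) κ b hb with h | h
  · left
    intro j q hq
    refine Submodule.span_mono ?_ (h j q hq)
    rintro _ ⟨c, hc, rfl⟩
    exact ⟨c, hc, rfl⟩
  · right
    exact h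

/-- The law for abelian varieties. -/
theorem law_ab (T : HodgeTheory ops) (X : 𝒱.Obj) (ψ : RForm T.W X)
    (hψ : IsPolarisation T X ψ) (hX : OfAbelianType T X) (ℓ : ℕ) [Fact ℓ.Prime]
    [Algebra T.W.K ℚ_[ℓ]] (G : Galois (powersL T ℚ_[ℓ] X) X.dim)
    (deligne : ∀ n j, extF (hodgeClasses T X) ℚ_[ℓ] n j ⊆ tate G n j)
    (faltings : VirtSemisimple (G.ρ 0))
    (faltings' : Combs ℚ_[ℓ] (tateK G (2 * X.dim - 1) 1) (extF (hodgeClasses T X) ℚ_[ℓ] 1 X.dim))
    (pink : WeakHodgeGenerate G (AlgebraicClosure ℚ_[ℓ]))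
    (centres : SelfAdjointCentre T X ψ ∨
      CentresAgree G (extF (hodgeClasses T X) ℚ_[ℓ]) (AlgebraicClosure ℚ_[ℓ]))
    (b : ℕ) (hb : b = Module.finrank T.W.K (T.W.H X)) :
    (∀ n j : ℕ, Spans (tate G) (extF (hodgeClasses T X) ℚ_[ℓ]) n j) ∨
      Sparse (count (hodgeClasses T X)) (count (tate G)) 1 b := by
  obtain ⟨τ⟩ := exists_emb ℓ
  rcases law T X ℚ_[ℓ] τ G deligne b hb 1 with h | h
  · left
    refine middle T X ψ hψ hX ℓ G deligne faltings faltings' pink centres ?_
    exact fun c hc => h X.dim hc.1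
  · exact Or.inr h

end Pool.Agent.P8H28.OP
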