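import Pool.Agent.P8H28.OP.HHalf
import Pool.Agent.P8H28.OP.FinA
import Pool.Agent.P8H28.OP.Defs2

/-!
# The effective half law for the Tate conjecture on the powers of an abelian variety
-/

set_option linter.unusedSectionVars false

open CategoryTheory AlgebraicGeometry TensorProduct

universe u

namespace Pool.Agent.P8H28.OP

open Pool.Agent.H914 Pool.Agent.H914.VarClass Pool.Agent.H914.VarClass.Obj
open Pool.Agent.Y133.Half (pw)
open Pool.Agent.Y121.AHS (HodgeTheory IsHodge toH)
open Pool.Agent.Y121.AH (em)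
open Pool.Agent.N996.FP (RForm IsPolarisation OfAbelianType SelfAdjointCentre)
open Pool.Agent.P8H28.SE

variable {k : Type u} [Field k] {𝒱 : VarClass k} {ops : CycleOps 𝒱}

lemma count_le_tate (T : HodgeTheory ops) (X : 𝒱.Obj) (L : Type) [Field L] [Algebra T.W.K L]
    (G : Galois (powersL T L X) X.dim)
    (deligne : ∀ n j, extF (hodgeClasses T X) L n j ⊆ tate G n j) (n : ℕ) :
    count (hodgeClasses T X) n ≤ count (tate G) n := by
  let G' : Galois (ext (powers T.W X) L) X.dim := G
  let i1 : Algebra (toH T).W.K L := ‹Algebra T.W.K L›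
  have h1 := Submodule.finrank_mono (base_le_TT (T := toH T) (G := toSQ G')
    (fun n j c hc => deligne n j ⟨c, hc, rfl⟩) n)
  rw [Pool.Agent.Y133.Half.Sys.finrank_base (S := Pool.Agent.Y121.AH.hodgeSys (toH T)) L (pw X n)] at h1
  exact h1

lemma count_alg_le (T : HodgeTheory ops) (X : 𝒱.Obj) (n : ℕ) :
    count (algClasses T.W X) n ≤ count (hodgeClasses T X) n := by
  rw [count_alg]
  exact Submodule.finrank_mono (alg_le_hodge T (pw X n))

/-- The law for abelian varieties. -/
theorem half_ab (T : HodgeTheory ops) (X : 𝒱.Obj) (ψ : RForm T.W X)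
    (hψ : IsPolarisation T X ψ) (hX : OfAbelianType T X) (ℓ : ℕ) [Fact ℓ.Prime]
    [Algebra T.W.K ℚ_[ℓ]] (G : Galois (powersL T ℚ_[ℓ] X) X.dim)
    (deligne : ∀ n j, extF (hodgeClasses T X) ℚ_[ℓ] n j ⊆ tate G n j)
    (faltings : VirtSemisimple (G.ρ 0))
    (faltings' : Combs ℚ_[ℓ] (tateK G (2 * X.dim - 1) 1) (extF (hodgeClasses T X) ℚ_[ℓ] 1 X.dim))
    (pink : WeakHodgeGenerate G (AlgebraicClosure ℚ_[ℓ]))
    (centres : SelfAdjointCentre T X ψ ∨
      CentresAgree G (extF (hodgeClasses T X) ℚ_[ℓ]) (AlgebraicClosure ℚ_[ℓ]))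
    (N : ℕ) (hN : (SelfAdjointCentre T X ψ ∧ N = 2) ∨ N = max 4 (2 * X.dim ^ (2 * X.dim)))
    (b : ℕ) (hb : b = Module.finrank T.W.K (T.W.H X)) :
    (∀ n j : ℕ, Spans (tate G) (extF (algClasses T.W X) ℚ_[ℓ]) n j ∧
      hodgeClasses T X n j ⊆ algClasses T.W X n j) ∨
    AtMostHalf (count (algClasses T.W X)) (count (tate G)) N b := by
  have hN2 : 2 ≤ N := by
    rcases hN with ⟨_, h⟩ | h
    · omega
    · rw [h]
      exact le_trans (by norm_num) (le_max_left _ _)
  obtain ⟨m, rfl⟩ : ∃ m, N = m + 1 := ⟨N - 1, by omega⟩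
  have hah := count_alg_le T X
  have hht := count_le_tate T X ℚ_[ℓ] G deligne
  rcases Nat.eq_zero_or_pos b with hb0 | hb0
  · -- the cohomology is zero
    right; right
    intro n
    have h1 : count (algClasses T.W X) n = 0 := by
      rw [count_alg]
      have h2 : Module.finrank T.W.K (T.W.H (pw X n)) = 0 := by
        rw [Pool.Agent.Y133.Half.finrank_pw, ← hb, hb0, zero_pow (by omega)]
      exact Nat.le_zero.1 ((Submodule.finrank_le _).trans h2.le)
    rw [h1, Nat.cast_zero, mul_zero]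
    refine mul_nonneg (Real.log_nonneg ?_) (Nat.cast_nonneg _)
    have : (0 : ℝ) ≤ n := Nat.cast_nonneg _
    linarith
  rcases law_ab T X ψ hψ hX ℓ G deligne faltings faltings' pink centres b hb with h | h
  · -- all Tate classes are combinations of Hodge classes
    rcases hodge_half T X m b (9 * (m + 1 + 3) * b ^ (m + 1 + 7)) hb (by
      refine Nat.mul_le_mul (Nat.mul_le_mul_left _ (by omega))
        (Nat.pow_le_pow_right hb0 (by omega))) with h1 | h1 | h1
    · left
      intro n j
      refine tateAll T X ψ hψ hX ℓ G deligne faltings faltings' pink centres (m + 1)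
        (hN.imp_right Or.inr) ?_ ?_ n j
      · intro j c hc
        exact h1 j hc
      · let G' : Galois (ext (powers T.W X) ℚ_[ℓ]) X.dim := G
        have h2 : SQ.TateConjecture (toSQ G') m :=
          SQ.tate_of_hodge (T := T) (fun j c hc => h1 j hc) fun j => from_iff.1 (h m j)
        have h3 : ∀ j, Spans (tate G) (extF (algClasses T.W X) ℚ_[ℓ]) 1 j :=
          tc_iff.2 (SQ.tate_le (by omega) h2)
        exact fun c hc => h3 X.dim hc.1
    · right; left
      intro n hn
      refine (h1 n hn).trans ?_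
      exact_mod_cast hht n
    · right; right
      intro n
      have h2 := h1 n
      push_cast at h2 ⊢
      refine h2.trans (mul_le_mul_of_nonneg_left ?_ (Real.log_nonneg ?_))
      · exact_mod_cast hht n
      · have : (0 : ℝ) ≤ n := Nat.cast_nonneg _
        linarith
  · right; left
    intro n hn
    have h1 := h.1 2 n (by norm_num) hn
    have hn' : (0 : ℝ) < n := by exact_mod_cast hn
    have hlog : 0 ≤ Real.log ((n : ℝ) + 2) / n :=
      div_nonneg (Real.log_nonneg (by linarith)) hn'.le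
    have ha : (count (algClasses T.W X) n : ℝ) ≤ count (hodgeClasses T X) n := by
      exact_mod_cast hah n
    have hc : (3 * 2 * (2 * (1 + 1) + 3) * b ^ (2 * (1 + 1) + 5) : ℕ) ≤
        9 * (m + 1 + 3) * b ^ (m + 1 + 7) := by
      refine Nat.mul_le_mul (by omega) (Nat.pow_le_pow_right hb0 (by omega))
    have hc' : ((3 * 2 * (2 * (1 + 1) + 3) * b ^ (2 * (1 + 1) + 5) : ℕ) : ℝ) ≤
        ((9 * (m + 1 + 3) * b ^ (m + 1 + 7) : ℕ) : ℝ) := by exact_mod_cast hc
    have h2 := mul_le_mul_of_nonneg_right hc' hlog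
    rw [mul_div_assoc] at h1 ⊢
    rcases le_or_gt ((2 : ℝ) - ((9 * (m + 1 + 3) * b ^ (m + 1 + 7) : ℕ) : ℝ) *
      (Real.log (n + 2) / n)) 0 with h0 | h0
    · exact (mul_nonpos_of_nonpos_of_nonneg h0 (Nat.cast_nonneg _)).trans (Nat.cast_nonneg _)
    · refine le_trans ?_ h1
      refine mul_le_mul ?_ ha (Nat.cast_nonneg _) ?_
      · push_cast at h2 ⊢
        linarith
      · push_cast at h2 h0 ⊢
        linarith

end Pool.Agent.P8H28.OP
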