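import Pool.Agent.P8H28.OP.Rel
import Pool.Agent.Y121.AH.ZeroOne
import Pool.Agent.Y133.Half.PairBase

/-!
# Classes whose external powers satisfy a polynomial relation over the Hodge classes
-/

set_option linter.unusedSectionVars false

open CategoryTheory AlgebraicGeometry TensorProduct

universe u

namespace Pool.Agent.P8H28.OP

open Module
open Pool.Agent.H914 Pool.Agent.H914.VarClass Pool.Agent.H914.VarClass.Obj
  Pool.Agent.H914.WeilCohomology
open Pool.Agent.Y133.Half Pool.Agent.Y133.Half.Sys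
open Pool.Agent.Y121.AH

variable {k : Type u} [Field k] {𝒱 : VarClass k} {ops : CycleOps 𝒱}

section Fix

variable {V : WeilCohomology.{u, 0} ops} {T' : HodgeTheory ops} {X P Q Z : 𝒱.Obj}
  (R : Rlz V (CW T')) {S : Sys V}

/-- The realisation of the operators of the system. -/
lemma op_comm' (hS : ∀ X, ∀ x ∈ S.C X, gop T' X (R.E X x) = R.E X x) {f : V.H P →ₗ[V.K] V.H Z}
    (hf : f ∈ S.Op P Z) : ∃ F : (CW T').H P →ₗ[(CW T').K] (CW T').H Z,
      (∀ x, F (R.E P x) = R.E Z (f x)) ∧ ∀ y, gop T' Z (F y) = F (gop T' P y) := by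
  obtain ⟨c, hc, rfl⟩ := Sys.mem_Op.1 hf
  have hne : R.c ^ P.dim ≠ 0 := pow_ne_zero _ R.ne
  have hne' : R.c ^ Z.dim ≠ 0 := pow_ne_zero _ R.ne
  refine ⟨(R.c ^ P.dim)⁻¹ • (CW T').corr (R.E _ c), fun x => ?_, fun y => ?_⟩
  · rw [LinearMap.smul_apply, corr_apply, corr_apply]
    have h := R.push (snd P Z) (c * V.map (fst P Z) x)
    rw [dim_prod, map_mul (R.E (P.prod Z)), R.nat] at h
    have h2 : R.c ^ Z.dim • (R.c ^ P.dim • R.E Z (V.push (snd P Z) (c * V.map (fst P Z) x))) =
        R.c ^ Z.dim • ((CW T').push (snd P Z) (R.E _ c * (CW T').map (fst P Z) (R.E P x))) := by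
      rw [← h, smul_smul, ← pow_add, Nat.add_comm Z.dim]
    have h3 := smul_right_injective _ hne' h2
    beta_reduce at h3
    rw [← h3, smul_smul, inv_mul_cancel₀ hne, one_smul]
  · rw [LinearMap.smul_apply, LinearMap.smul_apply, corr_apply, corr_apply, map_smul, gop_push,
      gop_mul, gop_map, hS _ c hc]

/-- A polynomial which annihilates the operators on the first members of a sequence. -/
noncomputable def muT (T' : HodgeTheory ops) (Y : ℕ → 𝒱.Obj) : ℕ → Polynomial (CW T').K
  | 0 => (gop T' (Y 0)).charpoly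
  | t + 1 => muT T' Y t * (gop T' (Y (t + 1))).charpoly

lemma muT_ne (Y : ℕ → 𝒱.Obj) : ∀ t, muT T' Y t ≠ 0
  | 0 => (LinearMap.charpoly_monic _).ne_zero
  | t + 1 => mul_ne_zero (muT_ne Y t) (LinearMap.charpoly_monic _).ne_zero

lemma dvd_muT (Y : ℕ → 𝒱.Obj) : ∀ t, ∀ i ≤ t, (gop T' (Y i)).charpoly ∣ muT T' Y t
  | 0, i, hi => by
    obtain rfl : i = 0 := by omega
    exact dvd_rfl
  | t + 1, i, hi => by
    rcases Nat.lt_succ_iff_lt_or_eq.1 (Nat.lt_succ_of_le hi) with h | rfl
    · exact (dvd_muT Y t i (by omega)).mul_right _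
    · exact dvd_mul_left _ _

lemma aeval_muT (Y : ℕ → 𝒱.Obj) {t i : ℕ} (hi : i ≤ t) :
    Polynomial.aeval (gop T' (Y i)) (muT T' Y t) = 0 := by
  obtain ⟨p, hp⟩ := dvd_muT (T' := T') Y t i hi
  rw [hp, map_mul, LinearMap.aeval_self_charpoly, zero_mul]

/-- Polynomial relations are inherited. -/
lemma rel_EE (hS : ∀ X, ∀ x ∈ S.C X, gop T' X (R.E X x) = R.E X x) {Y : ℕ → 𝒱.Obj}
    {w : ∀ i, V.H (Y i)} {t : ℕ} {x : V.H Z} (hx : x ∈ EE S w Z t) :
    Polynomial.aeval (gop T' Z) (muT T' Y t) (R.E Z x) = 0 := by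
  refine EE_ind (p := fun x => Polynomial.aeval (gop T' Z) (muT T' Y t) (R.E Z x) = 0) ?_ t ?_ hx
  · intro x y hx hy
    rw [map_add, map_add, hx, hy, add_zero]
  · intro i hi f hf
    obtain ⟨F, h1, h2⟩ := op_comm' R hS hf
    rw [← h1, aeval_comm h2, aeval_muT Y hi, LinearMap.zero_apply, map_zero]

lemma un_even {W : WeilCohomology.{u, 0} ops} {a : W.H X} (ha : a ∈ PH W X 0) {v : W.H Q}
    (hv : v ∈ PH W Q 0) : ∀ m, un W a v m ∈ PH W (qn X Q m) 0
  | 0 => ha
  | m + 1 => by
    have h := PH.mul (PH.map (fst (qn X Q m) Q) (un_even ha hv m)) (PH.map (snd (qn X Q m) Q) hv)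
    exact h

lemma E_un (a : V.H X) (v : V.H Q) : ∀ m, R.E (qn X Q m) (un V a v m) =
    un (CW T') (R.E X a) (R.E Q v) m
  | 0 => rfl
  | m + 1 => by
    have h : R.E ((qn X Q m).prod Q) (xp V (un V a v m) v) =
        xp (CW T') (R.E (qn X Q m) (un V a v m)) (R.E Q v) := by
      rw [xp, map_mul, R.nat, R.nat, xp]
    rw [E_un a v m] at h
    exact h

lemma gop_un {a : (CW T').H X} (ha : gop T' X a = a) {u : (CW T').H Q} {β : (CW T').K}
    (hu : gop T' Q u = β • u) :
    ∀ m, gop T' (qn X Q m) (un (CW T') a u m) = β ^ m • un (CW T') a u m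
  | 0 => by rw [pow_zero, one_smul]; exact ha
  | m + 1 => by
    have h : gop T' ((qn X Q m).prod Q) (xp (CW T') (un (CW T') a u m) u) =
        β ^ (m + 1) • xp (CW T') (un (CW T') a u m) u := by
      rw [xp, gop_mul, gop_map, gop_map, gop_un ha hu m, hu, map_smul, map_smul,
        smul_mul_smul_comm, ← pow_succ]
    exact h

lemma tr_un {W : WeilCohomology.{u, 0} ops} {a b : W.H X} (hb : b ∈ PH W X 0) {u v : W.H Q}
    (hv : v ∈ PH W Q 0) (hu : u ∈ PH W Q 0) : ∀ m,
    W.tr (qn X Q m) (un W a v m * un W b u m) = W.tr X (a * b) * W.tr Q (v * u) ^ m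
  | 0 => by rw [pow_zero, mul_one]; rfl
  | m + 1 => by
    have h : W.tr ((qn X Q m).prod Q) (xp W (un W a v m) v * xp W (un W b u m) u) =
        W.tr X (a * b) * W.tr Q (v * u) ^ (m + 1) := by
      rw [xp_mul _ _ _ _ hv (un_even hb hu m), zero_mul, pow_zero, one_smul, tr_xp,
        tr_un hb hv hu m, mul_assoc, ← pow_succ]
    exact h

/-- Polynomial relations for all external powers force a class to be fixed. -/
lemma fix_of_rel' [Nontrivial (T'.W.H X)] {μ : Polynomial (CW T').K} (hμ : μ ≠ 0) {j : ℕ}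
    {v : V.H Q} (hv : v ∈ V.gr Q (2 * j))
    (h : ∀ m, Polynomial.aeval (gop T' (qn X Q m)) μ (R.E (qn X Q m) (un V (1 : V.H X) v m)) = 0) :
    gop T' Q (R.E Q v) = R.E Q v := by
  have hE : R.E Q v ∈ (CW T').gr Q (2 * j) := R.gr hv
  have hE0 : R.E Q v ∈ PH (CW T') Q 0 := PH.of' (by omega) hE
  obtain ⟨l₀, hl₀, hl₁⟩ := exists_tr_hodge T' X
  set l : (CW T').H X := em T'.W ℂ l₀ with hl
  have hlg : gop T' X l = l := gop_hodge hl₀
  have hle : l ∈ PH (CW T') X 0 := PH.of' (by omega) (em_gr hl₀.1)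
  have hl1 : (CW T').tr X ((1 : (CW T').H X) * l) = 1 := by
    rw [one_mul, hl, em_tr, hl₁]
    exact map_one (algebraMap T'.W.K ℂ)
  rw [← sub_eq_zero]
  apply (CW T').nondeg
  intro y
  refine pq_ind_nat (T := T') (p := fun y => (CW T').tr Q ((gop T' Q (R.E Q v) - R.E Q v) * y) = 0)
    ?_ ?_ ?_ y
  · intro i a b hab y hy
    have hgy := gop_pq hy
    have h1 : (2 : (CW T').K) ^ (a - b) * (CW T').tr Q (gop T' Q (R.E Q v) * y) =
        (CW T').tr Q (R.E Q v * y) := by
      rw [← smul_eq_mul, ← map_smul, ← mul_smul_comm, ← hgy, ← gop_mul, tr_gop]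
    by_cases hab' : a = b
    · subst hab'
      rw [sub_self, zpow_zero, one_mul] at h1
      rw [sub_mul, map_sub, h1, sub_self]
    · have hyi : y ∈ (CW T').gr Q i := T'.dec.le Q hab hy
      have h2 : (CW T').tr Q (R.E Q v * y) = 0 := by
        rcases Nat.even_or_odd' i with ⟨r, hr | hr⟩
        · -- the even case
          by_contra hne
          have hy0 : y ∈ PH (CW T') Q 0 := PH.of' (by omega) hyi
          have key : ∀ m : ℕ, μ.eval (((2 : (CW T').K) ^ (b - a)) ^ m) = 0 := by
            intro m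
            have h3 := gop_un hlg hgy m
            have h4 : ∀ x, (CW T').tr (qn X Q m) (gop T' (qn X Q m) x * un (CW T') l y m) =
                ((2 : (CW T').K) ^ (b - a)) ^ m *
                  (CW T').tr (qn X Q m) (x * un (CW T') l y m) := by
              intro x
              have h5 : ((2 : (CW T').K) ^ (a - b)) ^ m *
                  (CW T').tr (qn X Q m) (gop T' (qn X Q m) x * un (CW T') l y m) =
                  (CW T').tr (qn X Q m) (x * un (CW T') l y m) := by
                rw [← smul_eq_mul, ← map_smul, ← mul_smul_comm, ← h3, ← gop_mul, tr_gop]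
              rw [← h5, ← mul_assoc, ← mul_pow, ← zpow_add₀ two_ne]
              simp
            have h6 := aeval_form (g := gop T' (qn X Q m))
              (φ := (CW T').tr (qn X Q m) ∘ₗ LinearMap.mulRight (CW T').K (un (CW T') l y m))
              (β := ((2 : (CW T').K) ^ (b - a)) ^ m) h4 μ (R.E (qn X Q m) (un V 1 v m))
            rw [h m, map_zero, E_un, map_one] at h6
            have h7 : ((CW T').tr (qn X Q m) ∘ₗ
                LinearMap.mulRight (CW T').K (un (CW T') l y m)) (un (CW T') 1 (R.E Q v) m) =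
                (CW T').tr Q (R.E Q v * y) ^ m := by
              have h8 := tr_un (a := (1 : (CW T').H X)) hle hE0 hy0 m
              rw [hl1, one_mul] at h8
              exact h8
            rw [h7] at h6
            exact (mul_eq_zero.1 h6.symm).resolve_right (pow_ne_zero _ hne)
          have hinj : Function.Injective fun m : ℕ => ((2 : (CW T').K) ^ (b - a)) ^ m := by
            intro m m' hmm
            beta_reduce at hmm
            rw [← zpow_natCast, ← zpow_natCast, ← zpow_mul, ← zpow_mul] at hmm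
            have h8 : (2 : (CW T').K) ^ ((b - a) * (m : ℤ) - (b - a) * (m' : ℤ)) = 1 := by
              rw [zpow_sub₀ two_ne, hmm, div_self (zpow_ne_zero _ two_ne)]
            have h9 := two_zpow_ne h8
            rw [← mul_sub] at h9
            rcases mul_eq_zero.1 h9 with h10 | h10
            · exact absurd (by omega) hab'
            · omega
          have hfin : {x : (CW T').K | μ.IsRoot x}.Finite := Polynomial.finite_setOfPred_isRoot hμ
          have hinf : (Set.range fun m : ℕ => ((2 : (CW T').K) ^ (b - a)) ^ m).Infinite :=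
            Set.infinite_range_of_injective hinj
          exact hinf (hfin.subset (by rintro _ ⟨m, rfl⟩; exact key m))
        · apply (CW T').tr_eq_zero ((CW T').mul_mem hE hyi)
          omega
      rw [h2] at h1
      have h3 := (mul_eq_zero.1 h1).resolve_left (zpow_ne_zero _ two_ne)
      rw [sub_mul, map_sub, h3, h2, sub_self]
  · intro a b ha hb; rw [mul_add, map_add, ha, hb, add_zero]
  · rw [mul_zero, map_zero]

end Fix

section Lrlz

variable {T : HodgeTheory ops} {L : Type} [Field L] [Algebra T.W.K L] {X Q : 𝒱.Obj}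

/-- The realisation given by an embedding of the coefficients into the complex numbers. -/
noncomputable def rlzL (T : HodgeTheory ops) {L : Type} [Field L] [Algebra T.W.K L]
    (τ : L →+* ℂ) : Rlz (baseW T.W L) (CW T) where
  s := kap T.W (ratAlg T τ)
  c := 1
  ne := one_ne_zero
  E X := psi T.W (ratAlg T τ) X
  semi _ r a := psi_smul _ r a
  gr h := psi_gr _ h
  nat f b := psi_map _ f b
  push f a := by rw [one_pow, one_pow, one_smul, one_smul, psi_push]

/-- The combinations of Hodge classes are fixed by the operator. -/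
lemma base_fix (τ : L →+* ℂ) (X : 𝒱.Obj) {x : (baseW T.W L).H X}
    (hx : x ∈ ((hodgeSys T).base L).C X) :
    gop T X ((rlzL T τ).E X x) = (rlzL T τ).E X x := by
  have hx' : x ∈ ((hodgeSys T).C X).baseChange L := hx
  refine base_induction (P := fun x : L ⊗[T.W.K] T.W.H X =>
    gop T X ((rlzL T τ).E X x) = (rlzL T τ).E X x) ?_ ?_ ?_ hx'
  · exact (map_zero ((rlzL T τ).E X)).symm ▸ map_zero (gop T X)
  · intro x y hx hy
    have h : (rlzL T τ).E X ((x : (baseW T.W L).H X) + (y : (baseW T.W L).H X)) =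
      (rlzL T τ).E X x + (rlzL T τ).E X y := map_add ((rlzL T τ).E X) _ _
    exact (congrArg (gop T X) h).trans (((map_add (gop T X) _ _).trans
      (congrArg₂ (· + ·) hx hy)).trans h.symm)
  · intro l a ha
    have h1 : gop T X (em T.W ℂ a) = em T.W ℂ a := by
      have ha' : a ∈ (hodgePred T).sp X := ha
      refine ClassPred.sp_ind (Q := hodgePred T)
        (q := fun a => gop T X (em T.W ℂ a) = em T.W ℂ a) ?_ ?_ ?_ ha'
      · intro j x hx
        exact gop_hodge hx
      · rw [em_zero, map_zero]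
      · intro x y hx hy
        rw [em_add, map_add, hx, hy]
    have h2 : (rlzL T τ).E X (show (baseW T.W L).H X from (l ⊗ₜ[T.W.K] a)) =
        (show (CW T).K from ratAlg T τ l) • em T.W ℂ a := by
      have h3 := psi_tmul (W := T.W) (ratAlg T τ) (X := X) l a
      exact h3.trans (tmul_eq _ _)
    change gop T X ((rlzL T τ).E X (show (baseW T.W L).H X from (l ⊗ₜ[T.W.K] a))) =
      (rlzL T τ).E X (show (baseW T.W L).H X from (l ⊗ₜ[T.W.K] a))
    rw [h2, map_smul, h1]

/-- **A class satisfying a polynomial relation over the Hodge classes is a combination of Hodge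
classes.** -/
theorem hodge_of_rel [Nontrivial (T.W.H X)] (τ : L →+* ℂ) {j : ℕ} {q : (baseW T.W L).H Q}
    (hq : q ∈ (baseW T.W L).gr Q (2 * j))
    (h : ¬ NoRel ((hodgeSys T).base L) (1 : (baseW T.W L).H X) q) :
    q ∈ Submodule.span (baseW T.W L).K {x | ∃ c', IsHodge T Q j c' ∧ em T.W L c' = x} := by
  unfold NoRel at h
  push Not at h
  obtain ⟨t, ht⟩ := h
  have hq0 : q ∈ PH (baseW T.W L) Q 0 := PH.of' (by omega) hq
  have hall := rel_all hq0 ht
  refine mem_span_hodge τ fun g => ?_
  have h1 := fix_of_rel' (X := X) (rlzL T (g.toRingHom.comp τ))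
    (muT_ne (T' := T) (qn X Q) t) hq fun m =>
      rel_EE _ (fun X x hx => base_fix _ X hx) (hall m)
  exact pq_of_fix' ((rlzL T (g.toRingHom.comp τ)).gr hq) h1

end Lrlz

end Pool.Agent.P8H28.OP
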