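import Pool.Agent.P8H28.OP.Fix
import Pool.Agent.P8H28.OP.Cd
import Pool.Agent.P8H28.DL.Rate
import Pool.Agent.Y121.AH.HR

/-!
# The effective one percent law for the Tate classes which are combinations of Hodge classes
-/

set_option linter.unusedSectionVars false

open CategoryTheory AlgebraicGeometry TensorProduct

universe u

namespace Pool.Agent.P8H28.OP

open Module
open Pool.Agent.H914 Pool.Agent.H914.VarClass Pool.Agent.H914.VarClass.Obj
  Pool.Agent.H914.WeilCohomology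
open Pool.Agent.Y133.Half Pool.Agent.Y133.Half.Sys
open Pool.Agent.Y121.AH
open Pool.Agent.P8H28.SQ (GaloisPowers IsTate)
open Pool.Agent.P8H28.AT (a_eq)

variable {k : Type u} [Field k] {𝒱 : VarClass k} {ops : CycleOps 𝒱}

/-- The bound with a larger constant. -/
lemma bound_mono {N x r t : ℝ} {c c' : ℕ} (hc : c ≤ c') (hx : 0 ≤ x) (hr : 0 ≤ r)
    (h : (N - c * x) * r ≤ t) : (N - c' * x) * r ≤ t := by
  refine le_trans (mul_le_mul_of_nonneg_right ?_ hr) h
  have h1 : (c : ℝ) ≤ c' := by exact_mod_cast hc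
  have h2 := mul_le_mul_of_nonneg_right h1 hx
  linarith

lemma log_div_nonneg (n : ℕ) : 0 ≤ Real.log ((n : ℝ) + 2) / n := by
  apply div_nonneg (Real.log_nonneg _) (Nat.cast_nonneg _)
  have : (0 : ℝ) ≤ n := Nat.cast_nonneg _
  linarith

/-- **The lower bound for a family with a class without relations.** -/
theorem bound_rel {W : WeilCohomology.{u, 0} ops} {S : Sys W} {X : 𝒱.Obj}
    (hS : ∀ Z : 𝒱.Obj, S.Num Z = ⊥) (F : Fam S X)
    (mul : ∀ n, ∀ x ∈ F.F n, ∀ y ∈ F.F n, x * y ∈ F.F n)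
    (map : ∀ m n, ∀ f : pw X m ⟶ pw X n, Pool.Agent.N996.BP.Geo.IsCd f → ∀ x ∈ F.F n,
      W.map f x ∈ F.F m) {κ : ℕ} {q : W.H (pw X κ)} (hq : q ∈ F.F κ)
    (hrel : NoRel S (1 : W.H X) q) {l : W.H X} (hl : l ∈ S.C X) (hl1 : W.tr X l = 1) {N c : ℕ}
    (hN : 0 < N)
    (hc : c = 3 * N * (N * (κ + 1) + 3) * finrank W.K (W.H X) ^ (N * (κ + 1) + 5)) {n : ℕ}
    (hn : 0 < n) :
    ((N : ℝ) - c * Real.log (n + 2) / n) * S.a (pw X n) ≤ finrank W.K (F.F n) := by
  have h1 : (1 : W.H X) ≠ 0 := one_ne_zero_of (ne_zero_of_tr hl1)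
  have hX : 0 < finrank W.K (W.H X) := by
    have : Nontrivial (W.H X) := ⟨⟨1, 0, h1⟩⟩
    exact Module.finrank_pos
  have hch := hasCh F hl hl1 h1 hrel (F.un_mem mul map hq) hN
  have h2 := bound_nd F hS hch rfl hn
  rw [mul_div_assoc] at h2 ⊢
  refine bound_mono ?_ (log_div_nonneg n) (Nat.cast_nonneg _) h2
  rw [hc]
  obtain ⟨N, rfl⟩ : ∃ N', N = N' + 1 := ⟨N - 1, by omega⟩
  rw [Nat.add_sub_cancel]
  have e1 : (N + 1) * (κ + 1) = N * (κ + 1) + κ + 1 := by ring
  rw [e1]
  refine Nat.mul_le_mul (Nat.mul_le_mul_left _ (by omega)) (Nat.pow_le_pow_right hX (by omega))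

variable {T : HodgeTheory ops} {X : 𝒱.Obj} {L : Type} [Field L] [Algebra T.W.K L]
  {G : GaloisPowers (baseW T.W L) X}

lemma base_le_TT (hD : ∀ n j c, IsHodge T (pw X n) j c → IsTate G n j (em T.W L c)) (n : ℕ) :
    ((hodgeSys T).base L).C (pw X n) ≤ TT G n := by
  intro x hx
  have hx' : x ∈ ((hodgeSys T).C (pw X n)).baseChange L := hx
  refine base_induction (P := fun x : L ⊗[T.W.K] T.W.H (pw X n) =>
    (show (baseW T.W L).H (pw X n) from x) ∈ TT G n) ?_ ?_ ?_ hx'
  · exact Submodule.zero_mem _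
  · intro x y hx hy
    exact Submodule.add_mem _ hx hy
  · intro l a ha
    have h1 : em T.W L a ∈ TT G n := by
      have ha' : a ∈ (hodgePred T).sp (pw X n) := ha
      refine ClassPred.sp_ind (Q := hodgePred T) (q := fun a => em T.W L a ∈ TT G n) ?_ ?_ ?_ ha'
      · intro j x hx
        exact Submodule.subset_span ⟨j, hD n j x hx⟩
      · rw [em_zero]; exact Submodule.zero_mem _
      · intro x y hx hy
        rw [em_add]; exact Submodule.add_mem _ hx hy
    have h2 := tmul_eq (W := T.W) (L := L) l a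
    rw [h2]
    exact Submodule.smul_mem _ _ h1

lemma base_num (Z : 𝒱.Obj) : ((hodgeSys T).base L).Num Z = ⊥ := by
  rw [eq_bot_iff]
  rintro x ⟨hx, h⟩
  have h1 : Nondeg ((hodgeSys T).base L) Z := Nondeg.base L fun _ hx h => hodge_nondeg hx h
  exact (Submodule.mem_bot _).2 (h1 x hx h)

lemma finrank_HL (X : 𝒱.Obj) : finrank (baseW T.W L).K ((baseW T.W L).H X) =
    finrank T.W.K (T.W.H X) := Module.finrank_baseChange (R := L) (M' := T.W.H X)

/-- **The effective one percent law.** -/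
theorem mt_core (τ : L →+* ℂ)
    (hD : ∀ n j c, IsHodge T (pw X n) j c → IsTate G n j (em T.W L c)) {κ j : ℕ}
    {q : (baseW T.W L).H (pw X κ)} (hq : IsTate G κ j q)
    (hq' : q ∉ Submodule.span (baseW T.W L).K
      {x | ∃ c', IsHodge T (pw X κ) j c' ∧ em T.W L c' = x}) {N c : ℕ} (hN : 0 < N)
    (hc : c = 3 * N * (N * (κ + 1) + 3) * finrank T.W.K (T.W.H X) ^ (N * (κ + 1) + 5)) {n : ℕ}
    (hn : 0 < n) :
    ((N : ℝ) - c * Real.log (n + 2) / n) * finrank T.W.K ((hodgeSys T).C (pw X n)) ≤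
      finrank (baseW T.W L).K (TT G n) := by
  have hnt : Nontrivial (T.W.H X) := by
    by_contra h0
    rw [not_nontrivial_iff_subsingleton] at h0
    apply hq'
    have h1 : finrank (baseW T.W L).K ((baseW T.W L).H (pw X κ)) = 0 := by
      rw [finrank_HL, finrank_pw, Module.finrank_zero_of_subsingleton, zero_pow (by omega)]
    have h2 : Subsingleton ((baseW T.W L).H (pw X κ)) := Module.finrank_zero_iff.1 h1
    rw [Subsingleton.elim q 0]
    exact Submodule.zero_mem _
  set S := (hodgeSys T).base L with hS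
  obtain ⟨l, hl, hl1⟩ := exists_tr_hodge T X
  have hlS : em T.W L l ∈ S.C X :=
    Submodule.tmul_mem_baseChange_of_mem (1 : L) (ClassPred.sp_of (Q := hodgePred T) hl)
  have hl1' : (baseW T.W L).tr X (em T.W L l) = 1 := by
    rw [em_tr, hl1]
    exact map_one (algebraMap T.W.K L)
  have hrel : NoRel S (1 : (baseW T.W L).H X) q := by
    by_contra h
    exact hq' (hodge_of_rel τ hq.1 h)
  have h1 := bound_rel (S := S) base_num (tateFam G S (base_le_TT hD)) TT_mul TT_map
    (Submodule.subset_span ⟨j, hq⟩) hrel hlS hl1' hN (c := c) (by rw [hc, finrank_HL]) hn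
  have h2 : S.a (pw X n) = finrank T.W.K ((hodgeSys T).C (pw X n)) := by
    rw [a_eq (base_num _)]
    exact finrank_base L (pw X n)
  rw [h2] at h1
  exact h1

/-- The law for the numbers of classes. -/
theorem mt_law (τ : L →+* ℂ)
    (hD : ∀ n j c, IsHodge T (pw X n) j c → IsTate G n j (em T.W L c)) (κ b : ℕ)
    (hb : b = finrank T.W.K (T.W.H X)) :
    (∀ j (q : (baseW T.W L).H (pw X κ)), IsTate G κ j q →
      q ∈ Submodule.span (baseW T.W L).K {x | ∃ c', IsHodge T (pw X κ) j c' ∧ em T.W L c' = x}) ∨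
    ((∀ N n : ℕ, 0 < N → 0 < n →
      ((N : ℝ) - (3 * N * (N * (κ + 1) + 3) * b ^ (N * (κ + 1) + 5) : ℕ) *
        Real.log (n + 2) / n) * finrank T.W.K ((hodgeSys T).C (pw X n)) ≤
          finrank (baseW T.W L).K (TT G n)) ∧
      ∀ n : ℕ, Real.log (n + 1) * finrank T.W.K ((hodgeSys T).C (pw X n)) ≤
        56 * (κ + 1) * Real.log (2 * b) * finrank (baseW T.W L).K (TT G n)) := by
  by_cases h : ∀ j (q : (baseW T.W L).H (pw X κ)), IsTate G κ j q →
      q ∈ Submodule.span (baseW T.W L).K {x | ∃ c', IsHodge T (pw X κ) j c' ∧ em T.W L c' = x}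
  · exact Or.inl h
  right
  push Not at h
  obtain ⟨j, q, hq, hq'⟩ := h
  have key : ∀ N n : ℕ, 0 < N → 0 < n →
      ((N : ℝ) - (3 * N * (N * (κ + 1) + 3) * b ^ (N * (κ + 1) + 5) : ℕ) *
        Real.log (n + 2) / n) * finrank T.W.K ((hodgeSys T).C (pw X n)) ≤
          finrank (baseW T.W L).K (TT G n) := fun N n hN hn =>
    mt_core τ hD hq hq' hN (by rw [hb]) hn
  refine ⟨key, ?_⟩
  have hb0 : 0 < b := by
    rw [Nat.pos_iff_ne_zero]
    intro h0
    apply hq'
    have h1 : finrank (baseW T.W L).K ((baseW T.W L).H (pw X κ)) = 0 := by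
      rw [finrank_HL, finrank_pw, ← hb, h0, zero_pow (by omega)]
    have h2 : Subsingleton ((baseW T.W L).H (pw X κ)) := Module.finrank_zero_iff.1 h1
    rw [Subsingleton.elim q 0]
    exact Submodule.zero_mem _
  apply Pool.Agent.P8H28.DL.rate hb0
  · intro n
    rw [← finrank_base (S := hodgeSys T) L (pw X n)]
    exact Submodule.finrank_mono (base_le_TT hD n)
  · intro N n hN hn
    have h1 := key N n hN hn
    rw [mul_div_assoc] at h1 ⊢
    refine bound_mono ?_ (log_div_nonneg n) (Nat.cast_nonneg _) h1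
    apply Nat.mul_le_mul_right
    calc 3 * N * (N * (κ + 1) + 3) = 3 * N * 1 * (N * (κ + 1) + 3) := by ring
      _ ≤ 3 * N * (N + 1) * (N * (κ + 1) + 3) :=
        Nat.mul_le_mul_right _ (Nat.mul_le_mul_left _ (by omega))

end Pool.Agent.P8H28.OP
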