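import Pool.Agent.P8H28.OP.Nd
import Pool.Agent.P8H28.OP.Defs
import Pool.Agent.P8H28.OP.MT
import Pool.Agent.P8H28.SE.Bridge

/-!
# The effective half law for the Hodge conjecture
-/

set_option linter.unusedSectionVars false

open CategoryTheory AlgebraicGeometry TensorProduct

universe u

namespace Pool.Agent.P8H28.OP

open Module
open Pool.Agent.H914 Pool.Agent.H914.VarClass Pool.Agent.H914.VarClass.Obj
open Pool.Agent.Y133.Half Pool.Agent.Y133.Half.Sys
open Pool.Agent.Y121.AHS (HodgeTheory IsHodge toH)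
open Pool.Agent.Y121.AH (hodgeSys hodgePred hodge_nondeg)
open Pool.Agent.H281R3.HT (algSpan)
open Pool.Agent.P8H28.SE

variable {k : Type u} [Field k] {𝒱 : VarClass k} {ops : CycleOps 𝒱}

lemma count_alg (W : WeilCohomology.{u, 0} ops) (X : 𝒱.Obj) (n : ℕ) :
    count (algClasses W X) n = finrank W.K ((algSys W).C (pw X n)) := by
  have h : ({c | ∃ j, c ∈ SE.algClasses W X n j} : Set (W.H (pw X n))) =
      ⋃ j, H914.algClasses W (pw X n) j := by
    apply Set.ext
    intro c
    exact (Set.mem_iUnion (x := c) (s := fun j => H914.algClasses W (pw X n) j)).symm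
  exact congrArg (fun s : Set (W.H (pw X n)) => finrank W.K (Submodule.span W.K s)) h

lemma alg_le_hodge (T : HodgeTheory ops) (Z : 𝒱.Obj) :
    (algSys (toH T).W).C Z ≤ (hodgeSys (toH T)).C Z := by
  intro x hx
  refine Pool.Agent.W536.RR.algSpan_induction (W := (toH T).W)
    (p := fun x => x ∈ (hodgeSys (toH T)).C Z) ?_ ?_ ?_ ?_ hx
  · exact Submodule.zero_mem _
  · intro a b ha hb; exact Submodule.add_mem _ ha hb
  · intro r a ha; exact Submodule.smul_mem _ _ ha
  · intro j z hz
    exact ClassPred.sp_of (Q := hodgePred (toH T)) (T.cyc Z j z hz)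

/-- **The effective half law for the Hodge conjecture.** -/
theorem hodge_half (T : HodgeTheory ops) (X : 𝒱.Obj) (m b c : ℕ)
    (hb : b = finrank T.W.K (T.W.H X)) (hc : 9 * (m + 4) * b ^ (m + 6) ≤ c) :
    (∀ j, hodgeClasses T X m j ⊆ algClasses T.W X m j) ∨
    (∀ n : ℕ, 0 < n → ((2 : ℝ) - c * Real.log (n + 2) / n) * count (algClasses T.W X) n ≤
      count (hodgeClasses T X) n) ∨
    ∀ n : ℕ, ((2 : ℝ) * Real.log (n + 1) - 56 * (m + 1) * Real.log (2 * b)) *
      count (algClasses T.W X) n ≤ Real.log (n + 1) * count (hodgeClasses T X) n := by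
  rcases half_nd (S := algSys (toH T).W) (T := hodgeSys (toH T)) (alg_le_hodge T)
    (fun Z x hx h => hodge_nondeg hx h) X m b c hb hc with h | h | h
  · left
    intro j c hc
    have h1 : c ∈ (hodgeSys (toH T)).C (pw X m) :=
      ClassPred.sp_of (Q := hodgePred (toH T)) hc
    exact Pool.Agent.N996.BP.exists_cyc (spanCycles_of_algSpan (h h1) hc.1)
  · right; left
    intro n hn
    rw [count_alg]
    exact h n hn
  · right; right
    intro n
    rw [count_alg]
    exact h n

end Pool.Agent.P8H28.OP
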