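import Pool.Agent.P8H28.OP.Step
import Pool.Agent.P8H28.DL.Rate

/-!
# The effective half law for a system contained in a system with a perfect pairing
-/

set_option linter.unusedSectionVars false

open CategoryTheory AlgebraicGeometry

universe u v

namespace Pool.Agent.P8H28.OP

open Module
open Pool.Agent.H914 Pool.Agent.H914.VarClass Pool.Agent.H914.VarClass.Obj
  Pool.Agent.H914.WeilCohomology
open Pool.Agent.Y133.Half Pool.Agent.Y133.Half.Sys
open Pool.Agent.P8H28.AT (a_le_H a_up C_eq log_le)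
open Pool.Agent.P8H28.DL (er er_nonneg al_ratio r_real concl one_le_log coef_small num_eff rate)
open Pool.Agent.Y121.AH (Stab Retr retr_fst)

variable {k : Type u} [Field k] {𝒱 : VarClass k} {ops : CycleOps 𝒱}
  {W : WeilCohomology.{u, v} ops} {S T : Sys W} {P P₀ Q Z X : 𝒱.Obj}

/-- The classes of the system `T` which are orthogonal to the classes of the system `S`. -/
def Orth (S T : Sys W) (Z : 𝒱.Obj) : Submodule W.K (W.H Z) where
  carrier := {x | x ∈ T.C Z ∧ ∀ s ∈ S.C Z, W.tr Z (x * s) = 0}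
  zero_mem' := ⟨Submodule.zero_mem _, fun d _ => by rw [zero_mul, map_zero]⟩
  add_mem' := fun {a b} ha hb => ⟨Submodule.add_mem _ ha.1 hb.1, fun d hd => by
    rw [add_mul, map_add, ha.2 d hd, hb.2 d hd, add_zero]⟩
  smul_mem' := fun r a ha => ⟨Submodule.smul_mem _ _ ha.1, fun d hd => by
    rw [smul_mul_assoc, map_smul, ha.2 d hd, smul_zero]⟩

lemma num_le_orth (hST : ∀ X, S.C X ≤ T.C X) : S.Num Z ≤ Orth S T Z :=
  fun _ hx => ⟨hST Z hx.1, hx.2⟩

lemma orth_op (hST : ∀ X, S.C X ≤ T.C X) {u : W.H P →ₗ[W.K] W.H Q} (hu : u ∈ S.Op P Q)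
    {x : W.H P} (hx : x ∈ Orth S T P) : u x ∈ Orth S T Q := by
  refine ⟨Op.apply hST hu hx.1, fun s hs => ?_⟩
  obtain ⟨u', hu', h⟩ := Op.exists_adj hu
  rw [h x s]
  exact hx.2 _ (Op.apply (fun _ => le_rfl) hu' hs)

lemma num_op {u : W.H P →ₗ[W.K] W.H Q} (hu : u ∈ S.Op P Q) {x : W.H P} (hx : x ∈ S.Num P) :
    u x ∈ S.Num Q :=
  orth_op (S := S) (T := S) (fun _ => le_rfl) hu hx

lemma finrank_orth (hST : ∀ X, S.C X ≤ T.C X) (hT : Nondeg T Z) :
    finrank W.K (S.C Z) + finrank W.K (Orth S T Z) = finrank W.K (T.C Z) := by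
  have hinj : Function.Injective (T.F Z 1) := by
    rw [← LinearMap.ker_eq_bot, LinearMap.ker_eq_bot']
    intro c hc
    apply Subtype.ext
    refine hT c c.2 fun y hy => ?_
    exact congrArg (fun f : T.C Z →ₗ[W.K] W.K => f ⟨y, hy⟩) hc
  have hsurj : Function.Surjective (T.F Z 1) :=
    (LinearMap.injective_iff_surjective_of_finrank_eq_finrank
      (Subspace.dual_finrank_eq).symm).1 hinj
  let i : S.C Z →ₗ[W.K] T.C Z := Submodule.inclusion (hST Z)
  have hi : Function.Injective i := Submodule.inclusion_injective _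
  let Λ : T.C Z →ₗ[W.K] (S.C Z →ₗ[W.K] W.K) := i.dualMap ∘ₗ T.F Z 1
  have hΛ : Function.Surjective Λ :=
    (LinearMap.dualMap_surjective_of_injective hi).comp hsurj
  have h1 := LinearMap.finrank_range_add_finrank_ker Λ
  rw [LinearMap.range_eq_top.2 hΛ, finrank_top] at h1
  have h2 : finrank W.K (S.C Z →ₗ[W.K] W.K) = finrank W.K (S.C Z) :=
    Subspace.dual_finrank_eq
  have h3 : finrank W.K (LinearMap.ker Λ) = finrank W.K (Orth S T Z) := by
    have h4 : (LinearMap.ker Λ).map (T.C Z).subtype = Orth S T Z := by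
      ext x
      constructor
      · rintro ⟨c, hc, rfl⟩
        refine ⟨c.2, fun s hs => ?_⟩
        exact congrArg (fun f : S.C Z →ₗ[W.K] W.K => f ⟨s, hs⟩) (LinearMap.mem_ker.1 hc)
      · rintro ⟨hx, hx'⟩
        refine ⟨⟨x, hx⟩, ?_, rfl⟩
        rw [SetLike.mem_coe, LinearMap.mem_ker]
        apply LinearMap.ext
        intro d
        exact hx' d d.2
    rw [← h4]
    exact (Submodule.equivMapOfInjective _ (Submodule.subtype_injective _) _).finrank_eq
  rw [h2, h3] at h1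
  exact h1

lemma orth_lt_of_retr (hST : ∀ X, S.C X ≤ T.C X) (h : Retr S P Q)
    (hlt : S.Num P < Orth S T P) : S.Num Q < Orth S T Q := by
  refine lt_of_le_of_ne (num_le_orth hST) fun heq => hlt.not_ge ?_
  intro x hx
  obtain ⟨i, hi, r, hr, hri⟩ := h
  have h1 : i x ∈ S.Num Q := by
    rw [heq]
    exact orth_op hST hi hx
  rw [← hri x]
  exact num_op hr h1

/-- The contribution of the orthogonal classes. -/
lemma orth_unit (hST : ∀ X, S.C X ≤ T.C X) (hX : 0 < finrank W.K (W.H X))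
    (hpos : ∀ n, 0 < S.al X n) {m m₀ j l n e c : ℕ} (hm₀ : m₀ ≤ 1) (hj : m + m₀ + 2 = 2 * j)
    (hl : 0 < l) (hn : n = m₀ + (l + l + 1) + 1) (θ : P ≅ pw X m)
    (hlt : S.Num P < Orth S T P)
    (hgr : (finrank W.K (W.H X) ^ 2) ^ (l + 1) ≤ S.al X l * (l + 2) ^ e)
    (hc : 5 * 1 * j * finrank W.K (W.H X) ^ (2 * j) * e ≤ c) :
    (((1 : ℕ) : ℝ) - c * Real.log (n + 2) / n) * S.a (pw X n) ≤
      (finrank W.K (Orth S T ((pw X m₀).prod ((pw X l).prod (pw X l)))) -
        finrank W.K (S.Num ((pw X m₀).prod ((pw X l).prod (pw X l)))) : ℕ) := by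
  set Z := (pw X m₀).prod ((pw X l).prod (pw X l)) with hZ
  obtain ⟨g, hg, hgg, h0, h⟩ := gstep S (M' := S.Num P) (M := Orth S T P)
    (fun a ha x hx => num_op ha hx) (fun a ha x hx => orth_op hST ha hx) hlt Z
  have h1 := h (S.Num Z) (Orth S T Z) (num_le_orth hST) (fun u hu x hx => num_op hu hx)
    (fun v hv x hx => orth_op hST hv hx)
  have h2 := r_real hX hpos hj θ hg hgg h0 hl hgr
  rw [← hZ] at h2
  refine concl (S := S) (t := finrank W.K (Orth S T Z) - finrank W.K (S.Num Z)) hX hm₀ hl hn hc ?_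
  rw [Nat.cast_one, one_mul]
  refine h2.trans ?_
  exact_mod_cast (by omega : S.r P g Z ≤ finrank W.K (Orth S T Z) - finrank W.K (S.Num Z))

/-- If the rank of the intersection form does not grow like the cohomology, it is very small in
comparison with the number of classes. -/
lemma small' (hX : 0 < finrank W.K (W.H X)) {m₀ l n : ℕ} (hm₀ : m₀ ≤ 1)
    (hn : n = m₀ + (l + l + 1) + 1)
    (h : S.al X l * (l + 2) ^ (3 * finrank W.K (W.H X) ^ 2) <
      (finrank W.K (W.H X) ^ 2) ^ (l + 1)) :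
    n * S.a (pw X n) ≤ 2 * finrank W.K (S.C (pw X n)) := by
  set b := finrank W.K (W.H X) with hb
  have h1 := S.growth X l
  rw [← hb, pow_mul] at h1
  have h2 : S.al X l * (l + 2) ^ (2 * b ^ 2) <
      finrank W.K (S.C ((pw X l).prod (pw X l))) := by
    have h3 : 3 * b ^ 2 = 2 * b ^ 2 + b ^ 2 := by ring
    rw [h3, pow_add, ← mul_assoc] at h
    exact lt_of_mul_lt_mul_right (h.trans_le h1) (Nat.zero_le _)
  have h3 : finrank W.K (S.C ((pw X l).prod (pw X l))) ≤ finrank W.K (S.C (pw X n)) := by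
    rw [← C_eq S hn]
    refine S.finrank_C_le (snd (pw X m₀) ((pw X l).prod (pw X l))) ?_
    have h4 : Nontrivial (W.H (pw X m₀)) := by
      apply Module.nontrivial_of_finrank_pos (R := W.K)
      rw [finrank_pw]
      exact Nat.pow_pos hX
    intro x y hxy
    have h5 : xp W (1 : W.H (pw X m₀)) (x - y) = 0 := by
      rw [xp_def, map_one, one_mul, map_sub, hxy, sub_self]
    exact sub_eq_zero.1 (xp_eq_zero_left one_ne_zero h5)
  have h4 : S.a (pw X n) ≤ b ^ (m₀ + 1) * S.al X l := a_up hn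
  have hb1 : 1 ≤ b := hX
  have h5 : b ^ (m₀ + 1) ≤ b ^ 2 := Nat.pow_le_pow_right hb1 (by omega)
  have h6 : (l + 2) * b ^ 2 ≤ (l + 2) ^ (2 * b ^ 2) := by
    have h7 : b ^ 2 < 2 ^ (b ^ 2) := Nat.lt_two_pow_self
    have h8 : b ^ 2 ≤ (l + 2) ^ (b ^ 2) := h7.le.trans (Nat.pow_le_pow_left (by omega) _)
    have h9 : l + 2 ≤ (l + 2) ^ (b ^ 2) := Nat.le_self_pow (by positivity) _
    rw [two_mul, pow_add]
    exact Nat.mul_le_mul h9 h8
  have h7 : (l + 2) * S.a (pw X n) ≤ finrank W.K (S.C (pw X n)) := by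
    calc (l + 2) * S.a (pw X n) ≤ (l + 2) * (b ^ (m₀ + 1) * S.al X l) := Nat.mul_le_mul_left _ h4
      _ ≤ (l + 2) * (b ^ 2 * S.al X l) := Nat.mul_le_mul_left _ (Nat.mul_le_mul_right _ h5)
      _ = S.al X l * ((l + 2) * b ^ 2) := by ring
      _ ≤ S.al X l * (l + 2) ^ (2 * b ^ 2) := Nat.mul_le_mul_left _ h6
      _ ≤ _ := h2.le.trans h3
  calc n * S.a (pw X n) ≤ (2 * (l + 2)) * S.a (pw X n) := Nat.mul_le_mul_right _ (by omega)
    _ = 2 * ((l + 2) * S.a (pw X n)) := by ring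
    _ ≤ _ := Nat.mul_le_mul_left _ h7

/-- **The effective half law**, the numerically trivial classes not being all the orthogonal ones. -/
theorem half_orth (hST : ∀ X, S.C X ≤ T.C X) (hND : ∀ Z, Nondeg T Z) {m c : ℕ}
    (hc : 9 * (m + 4) * finrank W.K (W.H X) ^ (m + 6) ≤ c)
    (hlt : S.Num (pw X m) < Orth S T (pw X m)) {n : ℕ} (hn : 0 < n) :
    ((2 : ℝ) - c * Real.log (n + 2) / n) * finrank W.K (S.C (pw X n)) ≤
      finrank W.K (T.C (pw X n)) := by
  have hlog : 0 ≤ (c : ℝ) * Real.log (n + 2) / n := by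
    have := one_le_log hn
    positivity
  have hs0 : (0 : ℝ) ≤ finrank W.K (S.C (pw X n)) := Nat.cast_nonneg _
  have hge := S.finrank_ge (Z := pw X n) hST (hND _)
  have hadd := S.a_add_num (pw X n)
  by_cases hZ : ∀ l ∈ S.C X, W.tr X l = 0
  · have h0 := S.a_eq_zero_of hZ n
    have h1 : (2 : ℝ) * finrank W.K (S.C (pw X n)) ≤ finrank W.K (T.C (pw X n)) := by
      exact_mod_cast (by omega : 2 * finrank W.K (S.C (pw X n)) ≤ finrank W.K (T.C (pw X n)))
    nlinarith
  push Not at hZ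
  obtain ⟨l', hl', hl'0⟩ := hZ
  obtain ⟨l, hl, hl1⟩ : ∃ l ∈ S.C X, W.tr X l = 1 :=
    ⟨(W.tr X l')⁻¹ • l', Submodule.smul_mem _ _ hl', by
      rw [map_smul, smul_eq_mul, inv_mul_cancel₀ hl'0]⟩
  have h1 : (1 : W.H X) ≠ 0 := one_ne_zero_of (ne_zero_of_tr hl1)
  have hX : 0 < finrank W.K (W.H X) := by
    have : Nontrivial (W.H X) := ⟨⟨1, 0, h1⟩⟩
    exact Module.finrank_pos
  have hpos : ∀ n, 0 < S.al X n := by
    intro n
    obtain ⟨m, hm, hm1⟩ := S.exists_lam hl hl1 n
    refine S.a_pos (xp_mem_C S hm hm) ?_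
    rw [tr_xp, hm1, mul_one]
  set b := finrank W.K (W.H X) with hb
  have hb1 : 1 ≤ b ^ (m + 6) := Nat.one_le_pow _ _ hX
  have hc36 : 36 ≤ c := by
    refine le_trans ?_ hc
    calc 36 = 9 * 4 * 1 := by norm_num
      _ ≤ _ := Nat.mul_le_mul (Nat.mul_le_mul_left _ (by omega)) hb1
  rcases Nat.lt_or_ge 3 n with h3 | h3
  swap
  · have := coef_small (n := n) (C := c) (L := 2) hn h3 (by omega)
      (a := finrank W.K (S.C (pw X n))) (h := finrank W.K (T.C (pw X n)))
    exact_mod_cast this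
  obtain ⟨m₀, i, hm₀, hi, hni⟩ : ∃ m₀ i, m₀ ≤ 1 ∧ 0 < i ∧ n = m₀ + (i + i + 1) + 1 :=
    ⟨n % 2, (n - n % 2 - 2) / 2, by omega, by omega, by omega⟩
  by_cases hg : (b ^ 2) ^ (i + 1) ≤ S.al X i * (i + 2) ^ (3 * b ^ 2)
  · have key : ∀ (m' j : ℕ) (P : 𝒱.Obj) (θ : P ≅ pw X m'), S.Num P < Orth S T P →
        m' ≤ m + 1 → m' + m₀ + 2 = 2 * j →
        ((2 : ℝ) - c * Real.log (n + 2) / n) * finrank W.K (S.C (pw X n)) ≤
          finrank W.K (T.C (pw X n)) := by
      intro m' j P θ hlt' hm' hj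
      have h4 := orth_unit hST hX hpos (c := c) hm₀ hj hi hni θ hlt' hg (by
        refine le_trans (const_le' (M := m + 4) hX (by omega)) (le_trans (le_of_eq ?_) hc)
        rw [← hb]
        ring)
      set Z := (pw X m₀).prod ((pw X i).prod (pw X i)) with hZd
      have h5 : finrank W.K (S.Num Z) ≤ finrank W.K (Orth S T Z) :=
        Submodule.finrank_mono (num_le_orth hST)
      have h6 := finrank_orth (Z := Z) hST (hND Z)
      have h7 := S.a_add_num Z
      have h8 : finrank W.K (S.C Z) = finrank W.K (S.C (pw X n)) := C_eq S hni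
      have h9 : finrank W.K (T.C Z) = finrank W.K (T.C (pw X n)) := C_eq T hni
      have h10 : S.a Z = S.a (pw X n) := S.a_iso (zIso X hni)
      rw [Nat.cast_sub h5] at h4
      have e1 : (finrank W.K (S.C (pw X n)) : ℝ) + finrank W.K (Orth S T Z) =
        finrank W.K (T.C (pw X n)) := by rw [← h8, ← h9]; exact_mod_cast h6
      have e2 : (S.a (pw X n) : ℝ) + finrank W.K (S.Num Z) = finrank W.K (S.C (pw X n)) := by
        rw [← h8, ← h10]; exact_mod_cast h7
      have e3 : (S.a (pw X n) : ℝ) ≤ finrank W.K (S.C (pw X n)) := by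
        exact_mod_cast (by omega : S.a (pw X n) ≤ finrank W.K (S.C (pw X n)))
      have e4 := mul_le_mul_of_nonneg_left e3 hlog
      rw [Nat.cast_one] at h4
      nlinarith
    by_cases hp : (m + m₀) % 2 = 0
    · exact key m ((m + m₀ + 2) / 2) _ (Iso.refl _) hlt (by omega) (by omega)
    · exact key (m + 1) ((m + 1 + m₀ + 2) / 2) ((pw X m).prod X) (Iso.refl _)
        (orth_lt_of_retr hST (retr_fst S hl hl1) hlt) le_rfl (by omega)
  · push Not at hg
    have h4 := small' hX hm₀ hni hg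
    have e1 : (n : ℝ) * S.a (pw X n) ≤ 2 * finrank W.K (S.C (pw X n)) := by exact_mod_cast h4
    have e2 : (2 : ℝ) * finrank W.K (S.C (pw X n)) - S.a (pw X n) ≤ finrank W.K (T.C (pw X n)) := by
      have : 2 * finrank W.K (S.C (pw X n)) ≤ finrank W.K (T.C (pw X n)) + S.a (pw X n) := by omega
      have h5 : (2 : ℝ) * finrank W.K (S.C (pw X n)) ≤
        finrank W.K (T.C (pw X n)) + S.a (pw X n) := by exact_mod_cast this
      linarith
    have hn' : (0 : ℝ) < n := by exact_mod_cast hn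
    have e3 : (S.a (pw X n) : ℝ) ≤ (2 / n) * finrank W.K (S.C (pw X n)) := by
      rw [div_mul_eq_mul_div, le_div_iff₀ hn']
      linarith
    have e4 : (2 : ℝ) / n ≤ c * Real.log (n + 2) / n := by
      apply div_le_div_of_nonneg_right _ hn'.le
      have h5 : (36 : ℝ) ≤ c := by exact_mod_cast hc36
      have h6 := one_le_log hn
      nlinarith
    have e5 := mul_le_mul_of_nonneg_right e4 hs0
    linarith

/-- **The effective half law** for a system contained in a system with a perfect pairing. -/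
theorem half_nd (hST : ∀ X, S.C X ≤ T.C X) (hND : ∀ Z, Nondeg T Z) (X : 𝒱.Obj) (m b c : ℕ)
    (hb : b = finrank W.K (W.H X)) (hc : 9 * (m + 4) * b ^ (m + 6) ≤ c) :
    T.C (pw X m) ≤ S.C (pw X m) ∨
    (∀ n : ℕ, 0 < n → ((2 : ℝ) - c * Real.log (n + 2) / n) * finrank W.K (S.C (pw X n)) ≤
      finrank W.K (T.C (pw X n))) ∨
    ∀ n : ℕ, ((2 : ℝ) * Real.log (n + 1) - 56 * (m + 1) * Real.log (2 * b)) *
      finrank W.K (S.C (pw X n)) ≤ Real.log (n + 1) * finrank W.K (T.C (pw X n)) := by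
  by_cases hT : T.C (pw X m) ≤ S.C (pw X m)
  · exact Or.inl hT
  right
  by_cases hlt : S.Num (pw X m) < Orth S T (pw X m)
  · left
    intro n hn
    exact half_orth hST hND (hb ▸ hc) hlt hn
  right
  have hNum : S.Num (pw X m) ≠ ⊥ := by
    intro h0
    have h1 : Orth S T (pw X m) = ⊥ := by
      by_contra h2
      exact hlt (by rw [h0]; exact bot_lt_iff_ne_bot.2 h2)
    have h2 := finrank_orth (Z := pw X m) hST (hND _)
    rw [h1, finrank_bot, add_zero] at h2
    exact hT (Submodule.eq_of_le_of_finrank_eq (hST _) h2).ge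
  have hb0 : 0 < b := by
    rw [Nat.pos_iff_ne_zero]
    intro h0
    apply hT
    have h1 : finrank W.K (W.H (pw X m)) = 0 := by
      rw [finrank_pw, ← hb, h0, zero_pow (by omega)]
    have h2 : Subsingleton (W.H (pw X m)) := Module.finrank_zero_iff.1 h1
    intro x _
    rw [Subsingleton.elim x 0]
    exact Submodule.zero_mem _
  intro n
  have hra : ∀ n, S.a (pw X n) ≤ finrank W.K (S.C (pw X n)) := fun n => by
    have := S.a_add_num (pw X n)
    omega
  have h1 := rate (b := b) (κ := m) hb0 (r := fun n => S.a (pw X n))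
    (a := fun n => finrank W.K (S.C (pw X n))) hra (fun L n hL hn => by
      have h2 := (num_eff (S := S) (T := S) (fun _ => le_rfl) X m L _ hL rfl).resolve_left hNum n hn
      rw [hb]
      exact h2) n
  have hge := S.finrank_ge (Z := pw X n) hST (hND _)
  have hadd := S.a_add_num (pw X n)
  have e2 : (2 : ℝ) * finrank W.K (S.C (pw X n)) - S.a (pw X n) ≤ finrank W.K (T.C (pw X n)) := by
    have : 2 * finrank W.K (S.C (pw X n)) ≤ finrank W.K (T.C (pw X n)) + S.a (pw X n) := by omega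
    have h5 : (2 : ℝ) * finrank W.K (S.C (pw X n)) ≤
      finrank W.K (T.C (pw X n)) + S.a (pw X n) := by exact_mod_cast this
    linarith
  have hlogn : 0 ≤ Real.log ((n : ℝ) + 1) := Real.log_nonneg (by
    have : (0 : ℝ) ≤ n := Nat.cast_nonneg _
    linarith)
  have e3 := mul_le_mul_of_nonneg_left e2 hlogn
  linarith

end Pool.Agent.P8H28.OP
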