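import Pool.Agent.P8H28.OP.Fam

/-!
# The chain generated by the external powers of a class
-/

set_option linter.unusedSectionVars false

open CategoryTheory AlgebraicGeometry

universe u v

namespace Pool.Agent.P8H28.OP

open Module
open Pool.Agent.H914 Pool.Agent.H914.VarClass Pool.Agent.H914.VarClass.Obj
  Pool.Agent.H914.WeilCohomology
open Pool.Agent.Y133.Half Pool.Agent.Y133.Half.Sys
open Pool.Agent.Y121.AH (Stab op_map op_push Retr retr_fst)

variable {k : Type u} [Field k] {𝒱 : VarClass k} {ops : CycleOps 𝒱}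
  {W : WeilCohomology.{u, v} ops} {S : Sys W} {P Q Z Z' X : 𝒱.Obj}

/-! ### Operators on products -/

/-- The map `(P × Z) × Q → P × Q`. -/
noncomputable def πl (P Z Q : 𝒱.Obj) : (P.prod Z).prod Q ⟶ P.prod Q :=
  Obj.lift (fst (P.prod Z) Q ≫ fst P Z) (snd (P.prod Z) Q)

/-- The map `(P × Z) × Q → Z × Q`. -/
noncomputable def πr (P Z Q : 𝒱.Obj) : (P.prod Z).prod Q ⟶ Z.prod Q :=
  Obj.lift (fst (P.prod Z) Q ≫ snd P Z) (snd (P.prod Z) Q)

lemma map_πl (x : W.H P) (y : W.H Q) :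
    W.map (πl P Z Q) (xp W x y) = xp W (W.map (fst P Z) x) y := by
  rw [xp, map_mul, ← W.map_comp, ← W.map_comp, πl, Obj.lift_fst, Obj.lift_snd, W.map_comp, xp]

lemma map_πr (x : W.H Z) (y : W.H Q) :
    W.map (πr P Z Q) (xp W x y) = xp W (W.map (snd P Z) x) y := by
  rw [xp, map_mul, ← W.map_comp, ← W.map_comp, πr, Obj.lift_fst, Obj.lift_snd, W.map_comp, xp]

lemma push_πr {w : W.H Q} (hw : w ∈ PH W Q 0) (y : W.H (P.prod Z)) :
    W.push (πr P Z Q) (xp W y w) = xp W (W.push (snd P Z) y) w := by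
  apply W.tr_ext
  intro c
  rw [W.tr_push]
  refine xp_induction (p := fun c => W.tr ((P.prod Z).prod Q) (xp W y w * W.map (πr P Z Q) c) =
    W.tr (Z.prod Q) (xp W (W.push (snd P Z) y) w * c)) ?_ ?_ c
  · intro a b ha hb
    rw [map_add, mul_add, map_add, ha, hb, mul_add, map_add]
  · intro i j z hz q hq
    rw [map_πr, xp_mul _ _ _ _ hw (PH.map _ hz), xp_mul _ _ _ _ hw hz, map_smul, map_smul, tr_xp,
      tr_xp, W.tr_push]

/-- The operator `f ⊗ 1`. -/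
lemma exists_ext {f : W.H P →ₗ[W.K] W.H Z} (hf : f ∈ S.Op P Z) (Q : 𝒱.Obj) :
    ∃ g ∈ S.Op (P.prod Q) (Z.prod Q), ∀ x : W.H P, ∀ w ∈ PH W Q 0,
      g (xp W x w) = xp W (f x) w := by
  obtain ⟨c, hc, rfl⟩ := mem_Op.1 hf
  refine ⟨_, Op.comp (op_push S (πr P Z Q) (S.map (fst (P.prod Z) Q) hc)) (Op.map (πl P Z Q)),
    fun x w hw => ?_⟩
  have h1 : W.map (fst (P.prod Z) Q) c * xp W (W.map (fst P Z) x) w =
      xp W (c * W.map (fst P Z) x) w := by
    rw [xp, xp, map_mul, mul_assoc]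
  change W.push (πr P Z Q) (W.map (fst (P.prod Z) Q) c * W.map (πl P Z Q) (xp W x w)) = _
  rw [map_πl, h1, push_πr hw, corr_apply]

/-! ### The external powers of a class -/

/-- The product of `X` and `m` copies of `Q`. -/
noncomputable def qn (X Q : 𝒱.Obj) : ℕ → 𝒱.Obj
  | 0 => X
  | m + 1 => (qn X Q m).prod Q

/-- The external product of `a` and `m` copies of `w`. -/
noncomputable def un (W : WeilCohomology.{u, v} ops) (a : W.H X) (w : W.H Q) :
    ∀ m, W.H (qn X Q m)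
  | 0 => a
  | m + 1 => (xp W (un W a w m) w : W.H ((qn X Q m).prod Q))

/-- The classes obtained from `w` by operators of the system. -/
noncomputable def orbT (S : Sys W) (w : W.H P) (Z : 𝒱.Obj) : Submodule W.K (W.H Z) :=
  (S.Op P Z).map (LinearMap.applyₗ w)

lemma mem_orbT {w : W.H P} {x : W.H Z} : x ∈ orbT S w Z ↔ ∃ f ∈ S.Op P Z, f w = x :=
  Submodule.mem_map

lemma orbT_self (w : W.H P) : w ∈ orbT S w P := mem_orbT.2 ⟨_, Op.id, rfl⟩

lemma orbT_op {g : W.H Z →ₗ[W.K] W.H Z'} (hg : g ∈ S.Op Z Z') {w : W.H P} {x : W.H Z}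
    (hx : x ∈ orbT S w Z) : g x ∈ orbT S w Z' := by
  obtain ⟨f, hf, rfl⟩ := mem_orbT.1 hx
  exact mem_orbT.2 ⟨_, Op.comp hg hf, rfl⟩

lemma orbT_xp {w : W.H Q} (hw : w ∈ PH W Q 0) {y : W.H P} {x : W.H Z} (hx : x ∈ orbT S y Z) :
    xp W x w ∈ orbT S (xp W y w) (Z.prod Q) := by
  obtain ⟨f, hf, rfl⟩ := mem_orbT.1 hx
  obtain ⟨g, hg, h⟩ := exists_ext hf Q
  exact mem_orbT.2 ⟨g, hg, h _ _ hw⟩

/-- The classes obtained from the first `t + 1` members of a sequence of classes. -/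
noncomputable def EE (S : Sys W) {Y : ℕ → 𝒱.Obj} (w : ∀ i, W.H (Y i)) (Z : 𝒱.Obj) :
    ℕ → Submodule W.K (W.H Z)
  | 0 => orbT S (w 0) Z
  | t + 1 => EE S w Z t ⊔ orbT S (w (t + 1)) Z

variable {Y : ℕ → 𝒱.Obj} {w : ∀ i, W.H (Y i)}

lemma EE_op {g : W.H Z →ₗ[W.K] W.H Z'} (hg : g ∈ S.Op Z Z') : ∀ (t : ℕ) {x : W.H Z},
    x ∈ EE S w Z t → g x ∈ EE S w Z' t
  | 0, _, hx => orbT_op hg hx
  | t + 1, x, hx => by
    obtain ⟨a, ha, b, hb, rfl⟩ := Submodule.mem_sup.1 (show x ∈ EE S w Z t ⊔ _ from hx)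
    rw [map_add]
    exact Submodule.add_mem_sup (EE_op hg t ha) (orbT_op hg hb)

lemma EE_mono {t t' : ℕ} (h : t ≤ t') : EE S w Z t ≤ EE S w Z t' := by
  induction h with
  | refl => exact le_rfl
  | step _ ih => exact ih.trans le_sup_left

lemma orbT_le_EE : ∀ t : ℕ, orbT S (w t) Z ≤ EE S w Z t
  | 0 => le_rfl
  | _ + 1 => le_sup_right

lemma EE_ind {p : W.H Z → Prop} (hadd : ∀ x y, p x → p y → p (x + y)) : ∀ (t : ℕ)
    (_ : ∀ i ≤ t, ∀ f ∈ S.Op (Y i) Z, p (f (w i))) {x : W.H Z}, x ∈ EE S w Z t → p x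
  | 0, h, x, hx => by
    obtain ⟨f, hf, rfl⟩ := mem_orbT.1 hx
    exact h 0 le_rfl f hf
  | t + 1, h, x, hx => by
    obtain ⟨a, ha, b, hb, rfl⟩ := Submodule.mem_sup.1 (show x ∈ EE S w Z t ⊔ _ from hx)
    obtain ⟨f, hf, rfl⟩ := mem_orbT.1 hb
    exact hadd _ _ (EE_ind hadd t (fun i hi => h i (by omega)) ha) (h (t + 1) le_rfl f hf)

section Powers

variable {a : W.H X} {q : W.H Q}

lemma EE_xp (hq : q ∈ PH W Q 0) : ∀ (t : ℕ) {x : W.H Z}, x ∈ EE S (un W a q) Z t →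
    xp W x q ∈ EE S (un W a q) (Z.prod Q) (t + 1)
  | 0, _, hx => orbT_le_EE (S := S) (w := un W a q) (Z := Z.prod Q) 1 (orbT_xp hq hx)
  | t + 1, x, hx => by
    obtain ⟨y, hy, z, hz, rfl⟩ :=
      Submodule.mem_sup.1 (show x ∈ EE S (un W a q) Z t ⊔ _ from hx)
    rw [xp_add_left]
    exact Submodule.add_mem _ (EE_mono (Nat.le_succ _) (EE_xp hq t hy))
      (orbT_le_EE (S := S) (w := un W a q) (Z := Z.prod Q) (t + 2) (orbT_xp hq hz))

/-- A polynomial relation for one external power implies relations for all of them. -/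
lemma rel_all (hq : q ∈ PH W Q 0) {t : ℕ}
    (h : un W a q (t + 1) ∈ EE S (un W a q) (qn X Q (t + 1)) t) :
    ∀ m, un W a q m ∈ EE S (un W a q) (qn X Q m) t := by
  have hle : ∀ Z : 𝒱.Obj, EE S (un W a q) Z (t + 1) ≤ EE S (un W a q) Z t := by
    intro Z
    refine sup_le le_rfl ?_
    intro x hx
    obtain ⟨f, hf, rfl⟩ := mem_orbT.1 hx
    exact EE_op hf t h
  intro m
  rcases Nat.lt_or_ge t m with hm | hm
  · obtain ⟨d, rfl⟩ : ∃ d, m = t + 1 + d := ⟨m - (t + 1), by omega⟩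
    induction d with
    | zero => exact h
    | succ d ih => exact hle _ (EE_xp hq t (ih (by omega)))
  · exact EE_mono hm (orbT_le_EE m (orbT_self _))

/-- No polynomial relations. -/
def NoRel (S : Sys W) (a : W.H X) (q : W.H Q) : Prop :=
  ∀ t, un W a q (t + 1) ∉ EE S (un W a q) (qn X Q (t + 1)) t

lemma Retr.refl (S : Sys W) (P : 𝒱.Obj) : Retr S P P := ⟨_, Op.id, _, Op.id, fun _ => rfl⟩

lemma Retr.trans (h : Retr S P Q) (h' : Retr S Q Z) : Retr S P Z := by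
  obtain ⟨i, hi, r, hr, e⟩ := h
  obtain ⟨i', hi', r', hr', e'⟩ := h'
  exact ⟨_, Op.comp hi' hi, _, Op.comp hr hr', fun x => by
    change r (r' (i' (i x))) = x
    rw [e', e]⟩

lemma retr_qn {l : W.H Q} (hl : l ∈ S.C Q) (hl1 : W.tr Q l = 1) (i : ℕ) :
    ∀ d, Retr S (qn X Q i) (qn X Q (i + d))
  | 0 => Retr.refl S _
  | d + 1 => Retr.trans (retr_qn hl hl1 i d) (retr_fst S hl hl1)

/-- **The chain.** -/
theorem hasCh (F : Fam S X) {κ : ℕ} {q : W.H (pw X κ)}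
    {l : W.H X} (hl : l ∈ S.C X) (hl1 : W.tr X l = 1) (ha : a ≠ 0) (hrel : NoRel S a q)
    (hF : ∀ i, ∃ θ : qn X (pw X κ) i ≅ pw X (i * (κ + 1)), un W a q i ∈ F.on θ) {L : ℕ}
    (hL : 0 < L) : HasCh F ((L - 1) * (κ + 1)) L := by
  obtain ⟨L, rfl⟩ : ∃ L', L = L' + 1 := ⟨L - 1, by omega⟩
  rw [Nat.add_sub_cancel]
  obtain ⟨y, hy, hy1⟩ := S.exists_lam hl hl1 κ
  set P := qn X (pw X κ) L with hP
  have hR : ∀ i ≤ L, Retr S (qn X (pw X κ) i) P := by
    intro i hi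
    obtain ⟨d, rfl⟩ : ∃ d, L = i + d := ⟨L - i, by omega⟩
    exact retr_qn hy hy1 i d
  obtain ⟨θ, -⟩ := hF L
  refine ⟨P, θ, fun i => if i = 0 then ⊥ else EE S (un W a q) P (i - 1), ?_, ?_, ?_⟩
  · intro i f hf x hx
    dsimp only at hx ⊢
    split_ifs at hx ⊢ with h
    · rw [(Submodule.mem_bot _).1 hx, map_zero]
      exact Submodule.zero_mem _
    · exact EE_op hf _ hx
  · intro i hi
    dsimp only
    rw [if_neg (by omega : i + 1 ≠ 0), Nat.add_sub_cancel]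
    obtain ⟨e, he, r, hr, her⟩ := hR i (by omega)
    have h1 : e (un W a q i) ∈ EE S (un W a q) P i :=
      orbT_le_EE i (mem_orbT.2 ⟨e, he, rfl⟩)
    rcases Nat.eq_zero_or_pos i with rfl | hi0
    · rw [if_pos rfl, bot_lt_iff_ne_bot]
      intro h
      rw [h, Submodule.mem_bot] at h1
      have h2 := her (un W a q 0)
      rw [h1, map_zero] at h2
      exact ha h2.symm
    · rw [if_neg (by omega)]
      refine lt_of_le_of_ne (EE_mono (by omega)) fun h => ?_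
      rw [← h] at h1
      have h2 := EE_op hr _ h1
      rw [her] at h2
      obtain ⟨i, rfl⟩ : ∃ i', i = i' + 1 := ⟨i - 1, by omega⟩
      exact hrel i h2
  · dsimp only
    rw [if_neg (by omega), Nat.add_sub_cancel]
    intro x hx
    refine EE_ind (p := fun x => x ∈ F.on θ) (fun x y hx hy => Submodule.add_mem _ hx hy) L
      (fun i _ f hf => ?_) hx
    obtain ⟨θ', h'⟩ := hF i
    exact F.on_op θ' θ hf h'

end Powers

end Pool.Agent.P8H28.OP
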