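import Pool.Agent.P8H28.OP.Fam

/-!
# One step of a chain of stable families
-/

set_option linter.unusedSectionVars false

open CategoryTheory AlgebraicGeometry

universe u v

namespace Pool.Agent.Y133.Half

open Module Polynomial

namespace Cat

variable {ι K : Type*} [Fintype ι] [DecidableEq ι] [Field K] {V : ι → Type*}
  [∀ i, AddCommGroup (V i)] [∀ i, Module K (V i)] [∀ i, FiniteDimensional K (V i)]
  (C : Cat K V)

/-- One step of a chain. -/
theorem gstep (i : ι) {M' M : Submodule K (V i)} (hM' : C.Stable M') (hM : C.Stable M)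
    (hlt : M' < M) : ∃ g ∈ C.S i i, g ∘ₗ g = g ∧ g ≠ 0 ∧ ∀ (j : ι) (E' E : Submodule K (V j)),
      E' ≤ E → (∀ u ∈ C.S i j, ∀ x ∈ E', u x ∈ M') → (∀ v ∈ C.S j i, ∀ m ∈ M, v m ∈ E) →
      finrank K E' + rk (C.B i j g LinearMap.id) ≤ finrank K E := by
  classical
  -- an idempotent of minimal rank which is not zero on `M / M'`
  let Q : ℕ → Prop := fun n => ∃ g ∈ C.S i i, g ∘ₗ g = g ∧ (∃ m ∈ M, g m ∉ M') ∧
    finrank K (LinearMap.range g) = n
  have hQ : ∃ n, Q n := by
    obtain ⟨m, hm, hm'⟩ := SetLike.exists_of_lt hlt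
    exact ⟨_, LinearMap.id, C.one i, rfl, ⟨m, hm, hm'⟩, rfl⟩
  obtain ⟨g, hg, hgg, ⟨m, hm, hgm⟩, hn⟩ := Nat.find_spec hQ
  have hmin : ∀ g' ∈ C.S i i, g' ∘ₗ g' = g' → finrank K (LinearMap.range g') <
      finrank K (LinearMap.range g) → ∀ m ∈ M, g' m ∈ M' := by
    intro g' hg' hgg' hlt' m hm
    by_contra h
    rw [hn] at hlt'
    exact Nat.find_min hQ hlt' ⟨g', hg', hgg', ⟨m, hm, h⟩, rfl⟩
  refine ⟨g, hg, hgg, ?_, fun j E' E hEE hE' hE => ?_⟩
  · rintro rfl
    exact hgm (by simp)
  set z := g m with hz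
  have hzM : z ∈ M := hM g hg m hm
  have hgz : g z = z := congrArg (fun f : V i →ₗ[K] V i => f m) hgg
  -- the key property
  have key : ∀ x ∈ C.S i i, x z ∈ M' → LinearMap.trace K (V i) (C.p i ∘ₗ g ∘ₗ x) = 0 := by
    intro x hx hxz
    set y : Module.End K (V i) := g ∘ₗ x ∘ₗ g with hy
    have hyS : y ∈ C.S i i := C.mul hg (C.mul hx hg)
    have hgy : g ∘ₗ y = y := by rw [hy, ← LinearMap.comp_assoc, hgg]
    have hyg : y ∘ₗ g = y := by rw [hy, LinearMap.comp_assoc, LinearMap.comp_assoc, hgg]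
    have hyz : y z ∈ M' := by
      rw [hy, LinearMap.comp_apply, LinearMap.comp_apply, hgz]
      exact hM' g hg _ hxz
    obtain ⟨q, hq1, hq2⟩ := exists_fit y
    set u := aeval y q with hu
    have huS : u ∈ C.S i i := C.aeval_mem hyS q
    have hcomm : u * y = y * u := by
      have : Commute (aeval y q) (aeval y (X : K[X])) := by
        rw [Commute, SemiconjBy, ← map_mul, ← map_mul, mul_comm]
      rw [aeval_X] at this
      exact this
    set π := u * y with hπ
    have hπS : π ∈ C.S i i := C.mul huS hyS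
    have hgπ : g * π = π := by
      rw [hcomm, ← mul_assoc]
      exact congrArg (fun f : Module.End K (V i) => f * u) hgy
    have hπg : π * g = π := by
      rw [hπ, mul_assoc]
      exact congrArg (fun f : Module.End K (V i) => u * f) hyg
    have hπ0 : π = 0 := by
      by_contra hne
      have h1 : (g - π) ∘ₗ (g - π) = g - π := by
        change (g - π) * (g - π) = g - π
        rw [sub_mul, mul_sub, mul_sub, hgπ, hπg, hq1, sub_self, sub_zero]
        change g ∘ₗ g - π = _
        rw [hgg]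
      have h2 : (g - π) ∈ C.S i i := Submodule.sub_mem _ hg hπS
      have h3 : finrank K (LinearMap.range (g - π)) < finrank K (LinearMap.range g) := by
        have hle : LinearMap.range (g - π) ≤ LinearMap.range g := by
          rintro _ ⟨x, rfl⟩
          refine ⟨(g - π) x, ?_⟩
          have : g * (g - π) = g - π := by
            rw [mul_sub, hgπ]
            change g ∘ₗ g - π = _
            rw [hgg]
          exact congrArg (fun f : Module.End K (V i) => f x) this
        apply Submodule.finrank_lt_finrank_of_lt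
        refine lt_of_le_of_ne hle ?_
        intro heq
        apply hne
        apply LinearMap.ext
        intro x
        have h4 : π x ∈ LinearMap.range g := ⟨π x, congrArg (fun f : Module.End K (V i) => f x) hgπ⟩
        rw [← heq] at h4
        obtain ⟨w, hw⟩ := h4
        have h5 : π ((g - π) w) = 0 := by
          have : π * (g - π) = 0 := by rw [mul_sub, hπg, hq1, sub_self]
          exact congrArg (fun f : Module.End K (V i) => f w) this
        rw [hw] at h5
        have h6 : π (π x) = π x := congrArg (fun f : Module.End K (V i) => f x) hq1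
        rw [LinearMap.zero_apply, ← h6, h5]
      have h4 : (g - π) z ∈ M' := hmin _ h2 h1 h3 z hzM
      have h5 : π z ∈ M' := by
        rw [hπ, Module.End.mul_apply]
        exact hM' u huS _ hyz
      have h6 : z ∈ M' := by
        have : z = (g - π) z + π z := by rw [LinearMap.sub_apply, hgz, sub_add_cancel]
        rw [this]
        exact Submodule.add_mem _ h4 h5
      exact hgm h6
    have hnil : IsNilpotent y := hq2 hπ0
    have h7 := C.tr_nil hyS hnil
    rw [hy] at h7
    have h8 : C.p i ∘ₗ g = g ∘ₗ C.p i := C.comm hg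
    calc LinearMap.trace K (V i) (C.p i ∘ₗ g ∘ₗ x)
        = LinearMap.trace K (V i) (C.p i ∘ₗ (g ∘ₗ g) ∘ₗ x) := by rw [hgg]
      _ = LinearMap.trace K (V i) (g ∘ₗ (C.p i ∘ₗ g ∘ₗ x)) := by
          congr 1
          rw [LinearMap.comp_assoc, ← LinearMap.comp_assoc (g ∘ₗ x) g (C.p i), h8,
            LinearMap.comp_assoc]
      _ = LinearMap.trace K (V i) ((C.p i ∘ₗ g ∘ₗ x) ∘ₗ g) := LinearMap.trace_comp_comm' _ _
      _ = 0 := by rw [← h7]; rfl
  -- the map `v ↦ v z`
  let Λ : C.S j i →ₗ[K] (V j ⧸ E') :=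
    { toFun := fun v => E'.mkQ ((v : V i →ₗ[K] V j) z)
      map_add' := fun a b => by rw [Submodule.coe_add, LinearMap.add_apply, map_add]
      map_smul' := fun c a => by
        rw [Submodule.coe_smul, LinearMap.smul_apply, map_smul, RingHom.id_apply] }
  have hker : LinearMap.ker Λ ≤ LinearMap.ker (C.B i j g LinearMap.id).flip := by
    intro v hv
    rw [LinearMap.mem_ker] at hv ⊢
    have h1 : (v : V i →ₗ[K] V j) z ∈ E' := by
      have : E'.mkQ ((v : V i →ₗ[K] V j) z) = 0 := hv
      rwa [Submodule.mkQ_apply, Submodule.Quotient.mk_eq_zero] at this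
    apply LinearMap.ext
    intro u
    rw [LinearMap.flip_apply, B_apply, LinearMap.id_comp, LinearMap.zero_apply]
    exact key _ (C.mul u.2 v.2) (hE' u u.2 _ h1)
  have hr1 := LinearMap.finrank_range_add_finrank_ker Λ
  have hr2 := LinearMap.finrank_range_add_finrank_ker (C.B i j g LinearMap.id).flip
  have hr3 := Submodule.finrank_mono hker
  have hr4 : rk (C.B i j g LinearMap.id) ≤ finrank K (LinearMap.range Λ) := by
    rw [← rk_flip, rk]
    omega
  have hr5 : LinearMap.range Λ ≤ E.map E'.mkQ := by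
    rintro _ ⟨v, rfl⟩
    exact ⟨_, hE v v.2 z hzM, rfl⟩
  have hr6 := Submodule.finrank_mono hr5
  have hr7 : finrank K (E.map E'.mkQ) + finrank K E' = finrank K E := by
    have h1 := LinearMap.finrank_range_add_finrank_ker (E'.mkQ.domRestrict E)
    rw [LinearMap.range_domRestrict] at h1
    rw [← h1]
    congr 1
    have h2 : LinearMap.ker (E'.mkQ.domRestrict E) = E'.submoduleOf E := by
      ext x
      simp [Submodule.submoduleOf]
    rw [h2]
    exact (Submodule.submoduleOfEquivOfLe hEE).finrank_eq.symm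
  omega

end Cat

end Pool.Agent.Y133.Half

namespace Pool.Agent.P8H28.OP

open Module
open Pool.Agent.H914 Pool.Agent.H914.VarClass Pool.Agent.H914.VarClass.Obj
  Pool.Agent.H914.WeilCohomology
open Pool.Agent.Y133.Half Pool.Agent.Y133.Half.Sys
open Pool.Agent.Y121.AH (Stab)

variable {k : Type u} [Field k] {𝒱 : VarClass k} {ops : CycleOps 𝒱}
  {W : WeilCohomology.{u, v} ops} {S : Sys W} {P Z : 𝒱.Obj}

/-- **One step of a chain of stable families.** -/
theorem gstep (S : Sys W) {M' M : Submodule W.K (W.H P)} (hM' : Stab S P M') (hM : Stab S P M)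
    (hlt : M' < M) (Z : 𝒱.Obj) : ∃ g ∈ S.Op P P, g ∘ₗ g = g ∧ g ≠ 0 ∧
      ∀ E' E : Submodule W.K (W.H Z), E' ≤ E → (∀ u ∈ S.Op Z P, ∀ x ∈ E', u x ∈ M') →
        (∀ v ∈ S.Op P Z, ∀ m ∈ M, v m ∈ E) →
        finrank W.K E' + S.r P g Z ≤ finrank W.K E := by
  let X : Fin 2 → 𝒱.Obj := ![P, Z]
  obtain ⟨g, hg, hgg, h0, h⟩ := (S.cat X).gstep (0 : Fin 2) (M' := M') (M := M) hM' hM hlt
  refine ⟨g, hg, hgg, h0, fun E' E h1 h2 h3 => ?_⟩
  have h4 := h 1 E' E h1 h2 h3
  have h5 := S.rk_BO_r (P := P) (Z := Z) (g := g) (Op.ev (S := S) hg)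
  have h6 : rk (A := (S.cat X).S 0 1) (B := (S.cat X).S 1 0) ((S.cat X).B 0 1 g LinearMap.id) =
    S.r P g Z := h5
  rw [h6] at h4
  exact h4

end Pool.Agent.P8H28.OP
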